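import Pool.Agent.Helper71.HD.Two

/-!
# The block lemma for at most two generators
-/

namespace Pool.Agent.Helper71.HD

open SimpleGraph Pool.Agent.Helper4.Sel Pool.Agent.Helper82.Part

universe u

variable {G : Type u} [AddCommGroup G]

theorem three_le_addOrderOf [Finite G] {b : G} (hb : -b ≠ b) : 3 ≤ addOrderOf b := by
  have h0 : 0 < addOrderOf b := addOrderOf_pos b
  by_contra hlt
  have h2 : addOrderOf b = 1 ∨ addOrderOf b = 2 := by omega
  apply hb
  rw [neg_eq_iff_add_eq_zero, ← two_nsmul]
  rcases h2 with h | h
  · rw [AddMonoid.addOrderOf_eq_one_iff.1 h, nsmul_zero]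
  · rw [← h, addOrderOf_nsmul_eq_zero]

/-- one generator: one Hamilton cycle -/
theorem hamDec_one {b : G} (hgen : AddSubgroup.closure {b} = ⊤) (hb : -b ≠ b) :
    HamDec G ({b} : Set G) := by
  have adj : ∀ x y, (circulantGraph ({b} : Set G)).Adj x y ↔ y = x + b ∨ y = x - b := by
    intro x y
    simp only [circulantGraph, fromRel_adj, Set.mem_singleton_iff]
    constructor
    · rintro ⟨-, h | h⟩
      · right; rw [← h]; abel
      · left; rw [← h]; abel
    · have b0 : b ≠ 0 := fun h => hb (by rw [h, neg_zero])
      rintro (h | h)
      · subst h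
        exact ⟨fun e => b0 (left_eq_add.1 e), Or.inr (by abel)⟩
      · subst h
        exact ⟨fun e => b0 (sub_eq_self.1 e.symm), Or.inl (by abel)⟩
  refine ⟨fun _ => circulantGraph {b}, fun _ => ⟨?_, ?_⟩, fun _ => le_rfl, ?_⟩
  · rw [connected_iff_exists_forall_reachable]
    refine ⟨0, fun x => ?_⟩
    have hx : x ∈ AddSubgroup.closure ({b} : Set G) := by rw [hgen]; trivial
    obtain ⟨z, rfl⟩ := AddSubgroup.mem_closure_singleton.1 hx
    clear hx
    change (circulantGraph ({b} : Set G)).Reachable 0 (z • b)
    induction z using Int.induction_on with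
    | zero => rw [zero_zsmul]
    | succ n ih =>
      refine ih.trans (Adj.reachable ?_)
      rw [adj]
      left
      rw [add_zsmul, one_zsmul]
    | pred n ih =>
      refine ih.trans (Adj.reachable ?_)
      rw [adj]
      right
      rw [sub_zsmul, one_zsmul, sub_eq_add_neg]
  · intro v
    have e : (circulantGraph ({b} : Set G)).neighborSet v = {v + b, v - b} := by
      ext y
      rw [mem_neighborSet, adj]
      rfl
    rw [e]
    refine Set.encard_pair fun h => hb ?_
    have := congrArg (fun z => z - v) h
    simp only [add_sub_cancel_left, sub_sub_cancel_left] at this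
    exact this.symm
  · intro x y hxy
    exact ⟨⟨b, rfl⟩, hxy, fun ⟨z, hz⟩ _ => by
      rw [Set.mem_singleton_iff] at hz
      subst hz
      rfl⟩

/-- two generators: two Hamilton cycles -/
theorem hamDec_two [Finite G] {b c : G} (hgen : AddSubgroup.closure {b, c} = ⊤) (hb : -b ≠ b)
    (hc : -c ≠ c) (hcb : c ∉ AddSubgroup.zmultiples b) : HamDec G ({b, c} : Set G) :=
  (twoHam hgen (three_le_addOrderOf hb) (three_le_addOrderOf hc) hcb).hamDec (by
    rintro rfl
    exact hcb (AddSubgroup.mem_zmultiples b))

/-- the block lemma for at most two elements -/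
theorem bLemma_two [Finite G] [DecidableEq G] (B : Finset G)
    (hB : CI (fun x : G => AddSubgroup.zmultiples x) ⊥ B) (hinv : ∀ s ∈ B, -s ∉ B)
    (hgen : AddSubgroup.closure (B : Set G) = ⊤) (hne : B.Nonempty) (hcard : B.card ≤ 2) :
    HamDec G (B : Set G) := by
  have hne' : ∀ s ∈ B, -s ≠ s := fun s hs e => hinv s hs (by rwa [e])
  cases hB with
  | empty => simp at hne
  | @insert x B hB hx =>
    cases hB with
    | empty =>
      simp only [insert_empty_eq, Finset.coe_singleton] at hgen ⊢
      exact hamDec_one hgen (hne' x (by simp))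
    | @insert y B hB hy =>
      cases hB with
      | empty =>
        simp only [insert_empty_eq, Finset.coe_insert, Finset.coe_singleton] at hgen ⊢
        rw [Set.pair_comm] at hgen ⊢
        refine hamDec_two hgen (hne' y (by simp)) (hne' x (by simp)) fun h => hx ?_
        simp only [insert_empty_eq, Finset.sup_singleton, bot_sup_eq]
        exact AddSubgroup.zmultiples_le_of_mem h
      | @insert z B hB hz =>
        exfalso
        have h1 : z ∉ B := fun h => hz (le_sup_of_le_right (Finset.le_sup (f := fun x : G =>
          AddSubgroup.zmultiples x) h))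
        have h2 : y ∉ insert z B := fun h => hy (le_sup_of_le_right (Finset.le_sup (f := fun x : G =>
          AddSubgroup.zmultiples x) h))
        have h3 : x ∉ insert y (insert z B) := fun h => hx (le_sup_of_le_right
          (Finset.le_sup (f := fun x : G => AddSubgroup.zmultiples x) h))
        rw [Finset.card_insert_of_notMem h3, Finset.card_insert_of_notMem h2,
          Finset.card_insert_of_notMem h1] at hcard
        omega

end Pool.Agent.Helper71.HD
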