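import Pool.Agent.Helper71.HD.Grid

/-!
# Moves along the columns
-/

namespace Pool.Agent.Helper71.HD

universe u

variable {α : Type u} {N q h : ℕ} {E F : ℕ → ℕ → Prop} {C : ℕ → ℕ → α}

theorem Moves.perMod (m : Moves N q h E F C) (i j : ℕ) : C (i % N) j = C i j := by
  have h1 : ∀ t, C (i % N + N * t) j = C (i % N) j := by
    intro t
    induction t with
    | zero => simp
    | succ t ih => rw [mul_add, mul_one, ← add_assoc, m.per, ih]
  conv_rhs => rw [← Nat.mod_add_div i N]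
  rw [h1]

theorem Moves.column (m : Moves N q h E F C) {i : ℕ} (hi : i < N) {j j' : ℕ} (hjj : j ≤ j')
    (hj' : j' < q) (hF : ∀ k, j ≤ k → k < j' → F i k) : C i j = C i j' := by
  induction j', hjj using Nat.le_induction with
  | base => rfl
  | succ k hk ih =>
    rw [ih (by omega) (fun l h1 h2 => hF l h1 (by omega)), m.up i k hi hj' (hF k hk (by omega))]

theorem Moves.row (m : Moves N q h E F C) {j : ℕ} (hj : j < q) {i i' : ℕ} (hii : i ≤ i')
    (hi' : i' ≤ N) (hE : ∀ k, i ≤ k → k < i' → E k j) : C i j = C i' j := by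
  induction i', hii using Nat.le_induction with
  | base => rfl
  | succ k hk ih =>
    rw [ih (by omega) (fun l h1 h2 => hE l h1 (by omega)),
      m.right k j (by omega) hj (hE k hk (by omega))]

theorem Moves.arc (m : Moves N q h E F C) (hN : 0 < N) (hq : 0 < q) {i : ℕ} (hi : i < N)
    (ht : F i (q - 1)) {K : ℕ} (hK : 1 ≤ K)
    (hF : ∀ k, 1 ≤ k → k < K → ∀ j, j < q → F ((i + k * h) % N) j) :
    C i (q - 1) = C (i + K * h) 0 := by
  induction K, hK using Nat.le_induction with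
  | base => rw [m.close i hi ht, one_mul]
  | succ K hK ih =>
    have hlt : (i + K * h) % N < N := Nat.mod_lt _ hN
    rw [ih (fun k h1 h2 => hF k h1 (by omega)), ← m.perMod,
      m.column hlt (Nat.zero_le (q - 1)) (by omega)
        (fun k _ h2 => hF K hK (by omega) k (by omega)),
      m.close _ hlt (hF K hK (by omega) _ (by omega)), ← m.perMod, Nat.mod_add_mod,
      m.perMod, add_assoc]
    congr 2
    ring

theorem reach_col (hN : 0 < N) (i t : ℕ) (ht : t < N)
    (hit : i ≡ t [MOD (Nat.gcd N h)]) : ∃ k, 1 ≤ k ∧ (i + k * h) % N = t := by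
  have hN0 : (N : ℤ) ≠ 0 := by exact_mod_cast hN.ne'
  have hN1 : (0 : ℤ) < N := by exact_mod_cast hN
  have hbez := Nat.gcd_eq_gcd_ab N h
  obtain ⟨s, hs⟩ := (Nat.modEq_iff_dvd.1 hit)
  set x := Nat.gcdA N h
  set y := Nat.gcdB N h
  -- t - i = g s, g = N x + h y
  refine ⟨((y * s) % N).toNat + N, by omega, ?_⟩
  have h1 := Int.emod_nonneg (y * s) hN0
  have h3 : ((((y * s) % N).toNat : ℕ) : ℤ) = (y * s) % N := Int.toNat_of_nonneg h1
  have h4 : ((i + (((y * s) % N).toNat + N) * h : ℕ) : ℤ) ≡ t [ZMOD N] := by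
    push_cast
    rw [h3]
    have h5 : (y * s) % N ≡ y * s [ZMOD N] := Int.mod_modEq _ _
    have h6 : ((i : ℤ) + ((y * s) % N + N) * h) ≡ i + (y * s + 0) * h [ZMOD N] := by
      refine Int.ModEq.add_left _ (Int.ModEq.mul_right _ (Int.ModEq.add h5 ?_))
      exact (Int.modEq_zero_iff_dvd).2 dvd_rfl
    refine h6.trans ?_
    rw [Int.modEq_iff_dvd]
    refine ⟨x * s, ?_⟩
    have : (t : ℤ) = i + (N * x + h * y) * s := by
      rw [← hbez, ← hs]; ring
    rw [this]; ring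
  have h5 := (Int.natCast_modEq_iff).1 h4
  rw [Nat.ModEq, Nat.mod_eq_of_lt ht] at h5
  exact h5

variable {T : ℕ → Prop}

theorem mod_gcd (i k : ℕ) : (i + k * h) % N ≡ i [MOD (Nat.gcd N h)] := by
  have h1 : (i + k * h) % N ≡ i + k * h [MOD (Nat.gcd N h)] :=
    (Nat.mod_modEq _ _).of_dvd (Nat.gcd_dvd_left N h)
  have h2 : i + k * h ≡ i + 0 [MOD (Nat.gcd N h)] := by
    refine Nat.ModEq.add_left _ ?_
    rw [Nat.modEq_zero_iff_dvd]
    exact dvd_mul_of_dvd_right (Nat.gcd_dvd_right N h) _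
  exact h1.trans h2

/-- the touched columns see everything -/
theorem Moves.all_of_touched (m : Moves N q h E F C) (hN : 0 < N) (hq : 0 < q)
    (clean : ∀ i, i < N → ¬ T i → ∀ j, j < q → F i j)
    (hreach : ∀ i, i < N → ∃ t, t < N ∧ T t ∧ i ≡ t [MOD (Nat.gcd N h)]) (z : α)
    (hT : ∀ t, t < N → T t → ∀ j, j < q → C t j = z) : ∀ i j, i < N → j < q → C i j = z := by
  classical
  intro i j hi hj
  by_cases hTi : T i
  · exact hT i hi hTi j hj
  have ex : ∃ k, 1 ≤ k ∧ T ((i + k * h) % N) := by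
    obtain ⟨t, ht, hTt, hit⟩ := hreach i hi
    obtain ⟨k, hk, hk2⟩ := reach_col hN i t ht hit
    exact ⟨k, hk, by rwa [hk2]⟩
  obtain ⟨h1, h2⟩ := Nat.find_spec ex
  have h3 : ∀ k, 1 ≤ k → k < Nat.find ex → ¬ T ((i + k * h) % N) :=
    fun k hk hk2 hk3 => Nat.find_min ex hk2 ⟨hk, hk3⟩
  have h4 := m.arc hN hq hi (clean i hi hTi _ (by omega)) h1
    (fun k hk hk2 j hj => clean _ (Nat.mod_lt _ hN) (h3 k hk hk2) j hj)
  rw [m.column hi (by omega : j ≤ q - 1) (by omega) (fun k _ _ => clean i hi hTi k (by omega)),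
    h4, ← m.perMod]
  exact hT _ (Nat.mod_lt _ hN) h2 0 hq

/-- a loop with a unique touched column -/
theorem Moves.arc_unique (m : Moves N q h E F C) (hN : 0 < N) (hq : 0 < q)
    (clean : ∀ i, i < N → ¬ T i → ∀ j, j < q → F i j) {t : ℕ} (ht : t < N) (hTt : T t)
    (top : F t (q - 1))
    (huni : ∀ s, s < N → T s → s ≡ t [MOD (Nat.gcd N h)] → s = t) :
    C t (q - 1) = C t 0 := by
  classical
  have ex : ∃ k, 1 ≤ k ∧ T ((t + k * h) % N) := by
    obtain ⟨k, hk, hk2⟩ := reach_col (h := h) hN t t ht rfl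
    exact ⟨k, hk, by rwa [hk2]⟩
  obtain ⟨h1, h2⟩ := Nat.find_spec ex
  have h3 : ∀ k, 1 ≤ k → k < Nat.find ex → ¬ T ((t + k * h) % N) :=
    fun k hk hk2 hk3 => Nat.find_min ex hk2 ⟨hk, hk3⟩
  have h4 := m.arc hN hq ht top h1
    (fun k hk hk2 j hj => clean _ (Nat.mod_lt _ hN) (h3 k hk hk2) j hj)
  rw [h4, ← m.perMod, huni _ (Nat.mod_lt _ hN) h2 (mod_gcd _ _)]

/-- a loop with two touched columns -/
theorem Moves.arc_pair (m : Moves N q h E F C) (hN : 0 < N) (hq : 0 < q)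
    (clean : ∀ i, i < N → ¬ T i → ∀ j, j < q → F i j) {t t' : ℕ} (ht : t < N) (ht' : t' < N)
    (hne : t ≠ t') (top : F t (q - 1)) (hmod : t ≡ t' [MOD (Nat.gcd N h)])
    (huni : ∀ s, s < N → T s → s ≡ t [MOD (Nat.gcd N h)] → s = t ∨ s = t') :
    C t (q - 1) = C t' 0 := by
  classical
  have ex : ∃ k, (t + k * h) % N = t' := by
    obtain ⟨k, hk, hk2⟩ := reach_col hN t t' ht' hmod
    exact ⟨k, hk2⟩
  have h2 := Nat.find_spec ex
  have h1 : 1 ≤ Nat.find ex := by
    rcases Nat.eq_zero_or_pos (Nat.find ex) with h0 | h0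
    · rw [h0, zero_mul, add_zero, Nat.mod_eq_of_lt ht] at h2
      exact absurd h2 hne
    · exact h0
  have h3 : ∀ k, 1 ≤ k → k < Nat.find ex → ¬ T ((t + k * h) % N) := by
    intro k hk hk2 hk3
    rcases huni _ (Nat.mod_lt _ hN) hk3 (mod_gcd _ _) with h5 | h5
    · refine Nat.find_min ex (m := Nat.find ex - k) (by omega) ?_
      have h6 : t + k * h ≡ t [MOD N] := by
        rw [Nat.ModEq, h5, Nat.mod_eq_of_lt ht]
      have h7 : k * h ≡ 0 [MOD N] := Nat.ModEq.add_left_cancel' t h6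
      have h8 : t + Nat.find ex * h = (t + (Nat.find ex - k) * h) + k * h := by
        rw [add_assoc, ← add_mul, Nat.sub_add_cancel hk2.le]
      have h9 : t + (Nat.find ex - k) * h ≡ t + Nat.find ex * h [MOD N] := by
        rw [h8]
        exact (Nat.ModEq.add_left _ h7).symm
      exact Eq.trans h9 h2
    · exact Nat.find_min ex hk2 h5
  have h4 := m.arc hN hq ht top h1
    (fun k hk hk2 j hj => clean _ (Nat.mod_lt _ hN) (h3 k hk hk2) j hj)
  rw [h4, ← m.perMod, h2]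

end Pool.Agent.Helper71.HD
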