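import Pool.Agent.Helper71.HD.Arc

/-!
# Many vertical and horizontal cycles: the chain of squares
-/

namespace Pool.Agent.Helper71.HD

universe u

variable {α : Type u} {N q h a : ℕ} {C : ℕ → ℕ → α}

/-- squares `(i, i mod 2)`, `i ≤ a`, and `(a + 1, j)`, `j` even, `(a, j)`, `j` odd, for
`2 ≤ j ≤ q - 2` -/
def Id (a q i j : ℕ) : Prop :=
  (j < 2 ∧ i ≤ a ∧ i % 2 = j) ∨ (2 ≤ j ∧ j + 1 < q ∧ i = a + 1 - j % 2)

theorem id_hb (haN : a + 2 ≤ N) : ∀ i j, i < N → j < q → Id a q i j →
    ¬ ((1 ≤ i ∧ Id a q (i - 1) j) ∨ (i = 0 ∧ Id a q (N - 1) j)) := by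
  intro i j hi hj
  simp only [Id]
  omega

theorem id_hc (hq : 3 ≤ q) : ∀ i j, i < N → j < q → Id a q i j →
    ¬ ((1 ≤ j ∧ Id a q i (j - 1)) ∨ (j = 0 ∧ Id a q ((i + (N - h)) % N) (q - 1))) := by
  intro i j hi hj
  simp only [Id]
  omega

theorem e1_id (hq : 3 ≤ q) (i j : ℕ) :
    e1 N q h (Id a q) i j ↔ Id a q i j ∨ (1 ≤ j ∧ Id a q i (j - 1)) := by
  simp only [e1, Id]
  omega

theorem chH (ha : a % 2 = 1) (haN : a + 2 ≤ N) (hq : 3 ≤ q)
    (m : Moves N q h (fun i j => ¬ e1 N q h (Id a q) i j) (fun i j => e2 N (Id a q) i j) C) :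
    ∀ i j, i < N → j < q → C i j = C 0 0 := by
  have wrap : ∀ j, C N j = C 0 j := by
    intro j
    have := m.per 0 j
    rwa [zero_add] at this
  have a1 : ∀ i j, a + 2 ≤ i → i ≤ N → j < q → C i j = C 0 j := by
    intro i j h2 hiN hj
    rw [m.row hj hiN le_rfl (fun k h1 h3 => by rw [e1_id hq]; simp only [Id]; omega), wrap]
  have b0 : C (a + 1) 0 = C 0 0 := by
    rw [m.row (by omega) (by omega) le_rfl
      (fun k h1 h3 => by rw [e1_id hq]; simp only [Id]; omega), wrap]
  have b1 : C (a + 1) 1 = C 0 1 := by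
    rw [m.row (by omega) (by omega) le_rfl
      (fun k h1 h3 => by rw [e1_id hq]; simp only [Id]; omega), wrap]
  have b2 : C a 0 = C 0 0 := by
    rw [m.right a 0 (by omega) (by omega) (by rw [e1_id hq]; simp only [Id]; omega), b0]
  have v01 : C 0 1 = C 0 0 := (m.up 0 0 (by omega) (by omega) (Or.inl (Or.inl ⟨by omega,
    by omega, rfl⟩))).symm
  have cols : ∀ i, 1 ≤ i → i ≤ a → C i 1 = C i 0 ∧ C i 2 = C i 0 := by
    intro i h1 h2
    have e0 := m.up i 0 (by omega) (by omega) (by simp only [e2, Id]; omega)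
    have e1 := m.up i 1 (by omega) (by omega) (by simp only [e2, Id]; omega)
    exact ⟨e0.symm, (e0.trans e1).symm⟩
  have chain : ∀ i, 1 ≤ i → i < a → C i 0 = C (i + 1) 0 := by
    intro i h1 h2
    rcases Nat.mod_two_eq_zero_or_one i with h0 | h0
    · rw [← (cols i h1 (by omega)).2, ← (cols (i + 1) (by omega) (by omega)).2]
      exact m.right i 2 (by omega) (by omega) (by rw [e1_id hq]; simp only [Id]; omega)
    · exact m.right i 0 (by omega) (by omega) (by rw [e1_id hq]; simp only [Id]; omega)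
  have low : ∀ i, 1 ≤ i → i ≤ a → C i 0 = C 0 0 := by
    intro i h1 h2
    obtain ⟨k, hk⟩ : ∃ k, a = i + k := ⟨a - i, by omega⟩
    induction k generalizing i with
    | zero => rw [show i = a by omega, b2]
    | succ k ih => rw [chain i h1 (by omega)]; exact ih (i + 1) (by omega) (by omega) (by omega)
  have l2 : C 0 2 = C 0 0 := by
    rw [m.right 0 2 (by omega) (by omega) (by rw [e1_id hq]; simp only [Id]; omega),
      (cols 1 le_rfl (by omega)).2, low 1 le_rfl (by omega)]
  have v12 : C (a + 1) 2 = C 0 0 := by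
    rw [← m.up (a + 1) 1 (by omega) (by omega) (by simp only [e2, Id]; omega), b1, v01]
  have row3 : ∀ i j, i ≤ a → 3 ≤ j → j < q → C i j = C a j := by
    intro i j h1 h2 h3
    exact m.row h3 h1 (by omega) (fun k h1 h3 => by rw [e1_id hq]; simp only [Id]; omega)
  have step : ∀ j, 2 ≤ j → j + 1 < q → C 0 (j + 1) = C 0 j := by
    intro j h1 h2
    rcases Nat.mod_two_eq_zero_or_one j with h0 | h0
    · rcases Nat.lt_or_ge (a + 2) N with h3 | h3
      · rw [← a1 (a + 2) j le_rfl (by omega) (by omega),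
          ← a1 (a + 2) (j + 1) le_rfl (by omega) (by omega)]
        exact (m.up (a + 2) j (by omega) (by omega) (by simp only [e2, Id]; omega)).symm
      · exact (m.up 0 j (by omega) (by omega)
          (Or.inr (Or.inr ⟨rfl, Or.inr ⟨h1, h2, by omega⟩⟩))).symm
    · rw [row3 0 j (by omega) (by omega) (by omega), row3 0 (j + 1) (by omega) (by omega) h2]
      exact (m.up a j (by omega) (by omega) (by simp only [e2, Id]; omega)).symm
  have zero : ∀ j, j < q → C 0 j = C 0 0 := by
    intro j
    rcases Nat.lt_or_ge j 2 with h1 | h1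
    · intro _
      interval_cases j
      · rfl
      · exact v01
    · induction j, h1 using Nat.le_induction with
      | base => intro _; exact l2
      | succ j h1 ih => intro h2; rw [step j h1 h2, ih (by omega)]
  have cola : ∀ j, 2 ≤ j → j < q → C (a + 1) j = C 0 0 := by
    intro j h1 h2
    rw [← v12]
    exact (m.column (by omega) h1 h2 (fun k _ _ => by simp only [e2, Id]; omega)).symm
  intro i j hi hj
  rcases Nat.lt_or_ge (a + 1) i with h1 | h1
  · rw [a1 i j (by omega) hi.le hj, zero j hj]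
  rcases Nat.lt_or_ge j 3 with h2 | h2
  · rcases Nat.eq_zero_or_pos i with h3 | h3
    · rw [h3, zero j hj]
    rcases Nat.lt_or_ge a i with h4 | h4
    · have : i = a + 1 := by omega
      subst this
      interval_cases j
      · exact b0
      · rw [b1, v01]
      · exact v12
    · interval_cases j
      · exact low i h3 h4
      · rw [(cols i h3 h4).1, low i h3 h4]
      · rw [(cols i h3 h4).2, low i h3 h4]
  · rcases Nat.lt_or_ge a i with h4 | h4
    · have : i = a + 1 := by omega
      subst this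
      exact cola j (by omega) hj
    · rw [row3 i j h4 h2 hj, ← row3 0 j (by omega) h2 hj, zero j hj]

/-- the core of the connectedness of the vertical graph -/
theorem chV_core (ha : a % 2 = 1) (haN : a + 2 ≤ N) (hq : 3 ≤ q)
    (m : Moves N q h (fun i j => e1 N q h (Id a q) i j) (fun i j => ¬ e2 N (Id a q) i j) C)
    (F1 : C (a + 2) (q - 1) = C 0 0) (F2 : C (a + 2) 2 = C 0 2)
    (A : ∀ t, 1 ≤ t → t ≤ a + 1 → C t (q - 1) = C t 0) :
    (∀ i j, 1 ≤ i → i ≤ a + 1 → j < q → C i j = C 0 0) ∧ (∀ j, j ≤ 2 → C 0 j = C 0 0) ∧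
    (∀ j, 2 ≤ j → j < q → C (a + 2) j = C 0 0) := by
  have wrap : ∀ j, C N j = C 0 j := by
    intro j
    have := m.per 0 j
    rwa [zero_add] at this
  have L1 : ∀ i, i ≤ a + 1 → C i 1 = C 0 1 := by
    intro i hi
    exact (m.row (by omega) (Nat.zero_le i) (by omega)
      (fun k h1 h3 => by rw [e1_id hq]; simp only [Id]; omega)).symm
  have c0 : C 0 1 = C 0 2 := m.up 0 1 (by omega) (by omega) (by simp only [e2, Id]; omega)
  have d0 : C (a + 1) 0 = C (a + 1) 1 :=
    m.up (a + 1) 0 (by omega) (by omega) (by simp only [e2, Id]; omega)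
  have h0 : ∀ i, i % 2 = 0 → i < a → C i 0 = C (i + 1) 0 := fun i h1 h2 =>
    m.right i 0 (by omega) (by omega) (by rw [e1_id hq]; simp only [Id]; omega)
  have h2 : ∀ i, i % 2 = 1 → i ≤ a → C i 2 = C (i + 1) 2 := fun i h1 h2 =>
    m.right i 2 (by omega) (by omega) (by rw [e1_id hq]; simp only [Id]; omega)
  have vcol : ∀ i j, 1 ≤ i → i < a → 2 ≤ j → j < q → C i j = C i (q - 1) := fun i j h1 h2 h3 h4 =>
    m.column (by omega) (by omega) (by omega) (fun k _ _ => by simp only [e2, Id]; omega)
  have srow : ∀ j, 2 ≤ j → j + 1 < q → C a j = C (a + 2) j ∧ C (a + 1) j = C (a + 2) j := by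
    intro j h1 h2
    have e0 := m.right a j (by omega) (by omega) (by rw [e1_id hq]; simp only [Id]; omega)
    have e1 := m.right (a + 1) j (by omega) (by omega) (by rw [e1_id hq]; simp only [Id]; omega)
    exact ⟨e0.trans e1, e1⟩
  have upc : ∀ j, 2 ≤ j → j + 1 < q → j % 2 = 1 → C (a + 2) j = C (a + 2) (j + 1) := by
    intro j h1 h2 h3
    rcases Nat.lt_or_ge (a + 2) N with h4 | h4
    · exact m.up (a + 2) j (by omega) (by omega) (by simp only [e2, Id]; omega)
    · have : a + 2 = N := by omega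
      rw [this, wrap, wrap]
      exact m.up 0 j (by omega) (by omega) (by simp only [e2, Id]; omega)
  have upa : ∀ j, 2 ≤ j → j + 1 < q → j % 2 = 0 → C a j = C a (j + 1) := by
    intro j h1 h2 h3
    exact m.up a j (by omega) (by omega) (by simp only [e2, Id]; omega)
  have snake : ∀ j, 2 ≤ j → j + 1 < q → C (a + 2) j = C (a + 2) 2 := by
    intro j h1
    induction j, h1 using Nat.le_induction with
    | base => intro _; rfl
    | succ j h1 ih =>
      intro h2
      rw [← ih (by omega)]
      rcases Nat.mod_two_eq_zero_or_one j with h0 | h0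
      · rw [← (srow j h1 (by omega)).1, ← (srow (j + 1) (by omega) (by omega)).1]
        exact (upa j h1 (by omega) h0).symm
      · exact (upc j h1 (by omega) h0).symm
  -- the main values
  have main : C 0 2 = C 0 0 ∧ C a 0 = C 0 0 ∧ C a 2 = C 0 0 ∧ C a (q - 1) = C 0 0 ∧
      C (a + 1) 0 = C 0 0 ∧ C (a + 1) (q - 1) = C 0 0 := by
    rcases Nat.lt_or_ge q 4 with hq4 | hq4
    · have hq3 : q = 3 := by omega
      subst hq3
      have F1' : C (a + 2) 2 = C 0 0 := F1
      have g1 : C 0 2 = C 0 0 := F2.symm.trans F1'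
      have g2 : C (a + 1) 0 = C 0 0 := by
        rw [d0, L1 (a + 1) le_rfl, c0, g1]
      have g3 : C (a + 1) 2 = C 0 0 := by
        rw [← g2]; exact A (a + 1) (by omega) le_rfl
      have g4 : C a 2 = C 0 0 := by rw [h2 a ha le_rfl, g3]
      have g5 : C a 0 = C 0 0 := by rw [← g4]; exact (A a (by omega) (by omega)).symm
      exact ⟨g1, g5, g4, g4, g2, g3⟩
    · obtain ⟨r, rfl⟩ : ∃ r, q = r + 2 := ⟨q - 2, by omega⟩
      rw [show r + 2 - 1 = r + 1 by omega] at F1 A ⊢
      rcases Nat.mod_two_eq_zero_or_one r with hr | hr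
      · -- even
        have t1 : C (a + 1) (r + 1) = C (a + 2) (r + 1) :=
          m.right (a + 1) (r + 1) (by omega) (by omega) (by rw [e1_id hq]; simp only [Id]; omega)
        have g1 : C (a + 1) (r + 1) = C 0 0 := t1.trans F1
        have g2 : C (a + 1) 0 = C 0 0 := by rw [← A (a + 1) (by omega) le_rfl, g1]
        have g3 : C 0 2 = C 0 0 := by rw [← c0, ← L1 (a + 1) le_rfl, ← d0, g2]
        have g4 : C (a + 2) 2 = C 0 0 := by rw [F2, g3]
        have g5 : C a 2 = C 0 0 := by rw [(srow 2 le_rfl (by omega)).1, g4]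
        have g6 : C a (r + 1) = C 0 0 := by
          rw [← upa r (by omega) (by omega) hr, (srow r (by omega) (by omega)).1,
            snake r (by omega) (by omega), g4]
        have g7 : C a 0 = C 0 0 := by rw [← A a (by omega) (by omega), g6]
        exact ⟨g3, g7, g5, g6, g2, g1⟩
      · -- odd
        have t1 : C a (r + 1) = C (a + 1) (r + 1) :=
          m.right a (r + 1) (by omega) (by omega) (by rw [e1_id hq]; simp only [Id]; omega)
        have g4 : C (a + 2) 2 = C 0 0 := by
          rw [← snake r (by omega) (by omega), upc r (by omega) (by omega) hr, F1]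
        have g3 : C 0 2 = C 0 0 := by rw [← F2, g4]
        have g2 : C (a + 1) 0 = C 0 0 := by rw [d0, L1 (a + 1) le_rfl, c0, g3]
        have g1 : C (a + 1) (r + 1) = C 0 0 := by rw [A (a + 1) (by omega) le_rfl, g2]
        have g5 : C a 2 = C 0 0 := by rw [(srow 2 le_rfl (by omega)).1, g4]
        have g6 : C a (r + 1) = C 0 0 := by rw [t1, g1]
        have g7 : C a 0 = C 0 0 := by rw [← A a (by omega) (by omega), g6]
        exact ⟨g3, g7, g5, g6, g2, g1⟩
  obtain ⟨m1, m2, m3, m4, m5, m6⟩ := main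
  have m7 : C 0 1 = C 0 0 := by rw [c0, m1]
  -- the lower columns
  have low : ∀ i, 1 ≤ i → i ≤ a → C i 0 = C 0 0 ∧ C i 2 = C 0 0 ∧ C i (q - 1) = C 0 0 := by
    intro i h1 h2'
    obtain ⟨k, hk⟩ : ∃ k, a = i + k := ⟨a - i, by omega⟩
    induction k generalizing i with
    | zero =>
      have : i = a := by omega
      subst this
      exact ⟨m2, m3, m4⟩
    | succ k ih =>
      obtain ⟨p1, p2, p3⟩ := ih (i + 1) (by omega) (by omega) (by omega)
      have hA := A i h1 (by omega)
      have hv := vcol i 2 h1 (by omega) le_rfl (by omega)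
      rcases Nat.mod_two_eq_zero_or_one i with hi0 | hi0
      · have e := h0 i hi0 (by omega)
        have e1 : C i 0 = C 0 0 := e.trans p1
        exact ⟨e1, (hv.trans hA).trans e1, hA.trans e1⟩
      · have e := h2 i hi0 (by omega)
        have e1 : C i 2 = C 0 0 := e.trans p2
        have e2 : C i (q - 1) = C 0 0 := hv.symm.trans e1
        exact ⟨hA.symm.trans e2, e1, e2⟩
  have sn : ∀ j, 2 ≤ j → j + 1 < q → C (a + 2) j = C 0 0 := by
    intro j h1 h2
    rw [snake j h1 h2, ← (srow 2 le_rfl (by omega)).1, m3]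
  refine ⟨?_, ?_, ?_⟩
  · intro i j h1 h2 h3
    rcases Nat.lt_or_ge j 2 with h4 | h4
    · interval_cases j
      · rcases Nat.lt_or_ge a i with h5 | h5
        · rw [show i = a + 1 by omega, m5]
        · exact (low i h1 h5).1
      · rw [L1 i h2, m7]
    · rcases Nat.lt_or_ge i a with h5 | h5
      · rw [vcol i j h1 h5 h4 h3, (low i h1 h5.le).2.2]
      · rcases Nat.lt_or_ge (j + 1) q with h6 | h6
        · have h7 := srow j h4 h6
          have h8 := sn j h4 h6
          have : i = a ∨ i = a + 1 := by omega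
          rcases this with h9 | h9
          · rw [h9, h7.1, h8]
          · rw [h9, h7.2, h8]
        · have : j = q - 1 := by omega
          subst this
          have : i = a ∨ i = a + 1 := by omega
          rcases this with h9 | h9
          · rw [h9, m4]
          · rw [h9, m6]
  · intro j hj
    interval_cases j
    · rfl
    · exact m7
    · exact m1
  · intro j h1 h2
    rcases Nat.lt_or_ge (j + 1) q with h6 | h6
    · exact sn j h1 h6
    · have : j = q - 1 := by omega
      rw [this, F1]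

end Pool.Agent.Helper71.HD
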