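import Pool.Agent.Helper71.HD.Switch

/-!
# Coordinates on a group generated by two elements
-/

namespace Pool.Agent.Helper71.HD

open SimpleGraph

universe u

variable {G : Type u} [AddCommGroup G]

/-- coordinates `(i, j)`, `i < N`, `j < q`, of the elements `i b + j c` -/
structure Grid (b c : G) (N q h : ℕ) : Prop where
  hN : 0 < N
  hq : 0 < q
  hh : h < N
  per : N • b = 0
  close : q • c = h • b
  inj : ∀ i i' j j', i < N → i' < N → j < q → j' < q → i • b + j • c = i' • b + j' • c →
    i = i' ∧ j = j'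
  surj : ∀ x : G, ∃ i j, i < N ∧ j < q ∧ x = i • b + j • c

theorem exists_grid {b c : G} (hgen : AddSubgroup.closure {b, c} = ⊤) (hb : 0 < addOrderOf b)
    (hc : 0 < addOrderOf c) :
    ∃ h, Grid b c (addOrderOf b)
      (addOrderOf (QuotientAddGroup.mk c : G ⧸ AddSubgroup.zmultiples b)) h := by
  set N := addOrderOf b with hN
  set q := addOrderOf (QuotientAddGroup.mk c : G ⧸ AddSubgroup.zmultiples b) with hq
  have hq0 : 0 < q := by
    rw [hq, addOrderOf_pos_iff, isOfFinAddOrder_iff_nsmul_eq_zero]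
    refine ⟨addOrderOf c, hc, ?_⟩
    rw [← QuotientAddGroup.mk_nsmul, addOrderOf_nsmul_eq_zero]
    rfl
  have hmem : ∀ j : ℕ, j • c ∈ AddSubgroup.zmultiples b ↔ q ∣ j := by
    intro j
    rw [hq, addOrderOf_dvd_iff_nsmul_eq_zero, ← QuotientAddGroup.mk_nsmul,
      QuotientAddGroup.eq_zero_iff]
  obtain ⟨z, hz⟩ := AddSubgroup.mem_zmultiples_iff.1 ((hmem q).2 dvd_rfl)
  have hNz : (N : ℤ) • b = 0 := by
    rw [natCast_zsmul, hN, addOrderOf_nsmul_eq_zero]
  have hN0 : (N : ℤ) ≠ 0 := by exact_mod_cast hb.ne'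
  have red : ∀ m : ℤ, ∃ i : ℕ, i < N ∧ m • b = i • b := by
    intro m
    refine ⟨(m % N).toNat, ?_, ?_⟩
    · have h1 := Int.emod_nonneg m hN0
      have h2 := Int.emod_lt_of_pos m (by exact_mod_cast hb : (0 : ℤ) < N)
      omega
    · have h1 := Int.emod_nonneg m hN0
      rw [← natCast_zsmul, Int.toNat_of_nonneg h1]
      conv_lhs => rw [← Int.emod_add_mul_ediv m N]
      rw [add_zsmul, mul_comm, mul_zsmul, hNz, zsmul_zero, add_zero]
  obtain ⟨h, hh, hzh⟩ := red z
  refine ⟨h, hb, hq0, hh, ?_, ?_, ?_, ?_⟩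
  · rw [hN, addOrderOf_nsmul_eq_zero]
  · rw [← hz, hzh]
  · have main : ∀ i i' j j', i < N → i' < N → j < q → j' < q → j ≤ j' →
        i • b + j • c = i' • b + j' • c → i = i' ∧ j = j' := by
      intro i i' j j' hi hi' hj hj' hjj e
      have e2 : (j' - j) • c = (i : ℤ) • b - (i' : ℤ) • b := by
        have : (j' - j) • c = j' • c - j • c := by
          rw [sub_nsmul _ hjj, sub_eq_add_neg]
        rw [this, natCast_zsmul, natCast_zsmul]
        have e3 : i • b = i' • b + j' • c - j • c := by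
          rw [← e]; abel
        rw [e3]; abel
      have h3 : (j' - j) • c ∈ AddSubgroup.zmultiples b := by
        rw [e2]
        exact sub_mem (AddSubgroup.zsmul_mem_zmultiples _ _)
          (AddSubgroup.zsmul_mem_zmultiples _ _)
      have h4 := (hmem _).1 h3
      have h5 : j' - j = 0 := Nat.eq_zero_of_dvd_of_lt h4 (by omega)
      have h6 : j = j' := by omega
      subst h6
      refine ⟨?_, rfl⟩
      have h7 : i • b = i' • b := add_right_cancel e
      have h8 := nsmul_inj_mod.1 h7
      rwa [Nat.mod_eq_of_lt hi, Nat.mod_eq_of_lt hi'] at h8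
    intro i i' j j' hi hi' hj hj' e
    rcases le_total j j' with hjj | hjj
    · exact main i i' j j' hi hi' hj hj' hjj e
    · have := main i' i j' j hi' hi hj' hj hjj e.symm
      exact ⟨this.1.symm, this.2.symm⟩
  · intro x
    have hx : x ∈ AddSubgroup.closure ({b, c} : Set G) := by rw [hgen]; trivial
    obtain ⟨m, n, hmn⟩ := AddSubgroup.mem_closure_pair.1 hx
    have hq1 : (q : ℤ) ≠ 0 := by exact_mod_cast hq0.ne'
    have hn1 := Int.emod_nonneg n hq1
    have hn2 := Int.emod_lt_of_pos n (by exact_mod_cast hq0 : (0 : ℤ) < q)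
    obtain ⟨i, hi, hi2⟩ := red (m + (n / q) * z)
    refine ⟨i, (n % q).toNat, hi, by omega, ?_⟩
    rw [← hi2, ← hmn, ← natCast_zsmul c, Int.toNat_of_nonneg hn1]
    conv_lhs => rw [← Int.emod_add_mul_ediv n q]
    rw [add_zsmul c, mul_comm (q : ℤ), mul_zsmul c, natCast_zsmul c q, ← hz, add_zsmul b,
      mul_zsmul b]
    abel

/-- the set of base points with indices in `I` -/
def DI (b c : G) (N q : ℕ) (I : ℕ → ℕ → Prop) : Set G :=
  {x | ∃ i j, i < N ∧ j < q ∧ I i j ∧ x = i • b + j • c}

variable {b c : G} {N q h : ℕ}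

theorem Grid.mem_iff (g : Grid b c N q h) {I : ℕ → ℕ → Prop} {i j : ℕ} (hi : i < N) (hj : j < q) :
    i • b + j • c ∈ DI b c N q I ↔ I i j := by
  constructor
  · rintro ⟨i', j', hi', hj', hI, e⟩
    obtain ⟨rfl, rfl⟩ := g.inj i i' j j' hi hi' hj hj' e
    exact hI
  · intro hI
    exact ⟨i, j, hi, hj, hI, rfl⟩

/-- is the `c`-edge at `(i, j)` switched -/
def e2 (N : ℕ) (I : ℕ → ℕ → Prop) (i j : ℕ) : Prop :=
  I i j ∨ (1 ≤ i ∧ I (i - 1) j) ∨ (i = 0 ∧ I (N - 1) j)

/-- is the `b`-edge at `(i, j)` switched -/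
def e1 (N q h : ℕ) (I : ℕ → ℕ → Prop) (i j : ℕ) : Prop :=
  I i j ∨ (1 ≤ j ∧ I i (j - 1)) ∨ (j = 0 ∧ I ((i + (N - h)) % N) (q - 1))

theorem Grid.sub_b (g : Grid b c N q h) {I : ℕ → ℕ → Prop} {i j : ℕ} (hi : i < N) (hj : j < q) :
    i • b + j • c - b ∈ DI b c N q I ↔ ((1 ≤ i ∧ I (i - 1) j) ∨ (i = 0 ∧ I (N - 1) j)) := by
  rcases Nat.eq_zero_or_pos i with rfl | h0
  · have hN := g.hN
    have e : 0 • b + j • c - b = (N - 1) • b + j • c := by
      have : (N - 1) • b = - b := by
        have h2 := g.per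
        have h3 : N = (N - 1) + 1 := by omega
        rw [h3, succ_nsmul] at h2
        exact eq_neg_of_add_eq_zero_left h2
      rw [this]; simp; abel
    rw [e, g.mem_iff (by omega) hj]
    simp
  · have e : i • b + j • c - b = (i - 1) • b + j • c := by
      have h3 : i = (i - 1) + 1 := by omega
      conv_lhs => rw [h3, succ_nsmul]
      abel
    rw [e, g.mem_iff (by omega) hj]
    constructor
    · intro h; exact Or.inl ⟨h0, h⟩
    · rintro (h | h)
      · exact h.2
      · omega

theorem Grid.sub_c (g : Grid b c N q h) {I : ℕ → ℕ → Prop} {i j : ℕ} (hi : i < N) (hj : j < q) :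
    i • b + j • c - c ∈ DI b c N q I ↔
      ((1 ≤ j ∧ I i (j - 1)) ∨ (j = 0 ∧ I ((i + (N - h)) % N) (q - 1))) := by
  rcases Nat.eq_zero_or_pos j with rfl | h0
  · have hN := g.hN
    have hh := g.hh
    have hq := g.hq
    have e : i • b + 0 • c - c = ((i + (N - h)) % N) • b + (q - 1) • c := by
      have e1 : (q - 1) • c = h • b - c := by
        have h2 := g.close
        have h3 : q = (q - 1) + 1 := by omega
        rw [h3, succ_nsmul] at h2
        exact eq_sub_of_add_eq h2
      have e2 : ((i + (N - h)) % N) • b = (i + (N - h)) • b := by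
        conv_rhs => rw [← Nat.mod_add_div (i + (N - h)) N]
        rw [add_nsmul, mul_comm, mul_nsmul', g.per, nsmul_zero, add_zero]
      have e3 : (N - h) • b + h • b = 0 := by
        rw [← add_nsmul, Nat.sub_add_cancel hh.le, g.per]
      rw [e1, e2, add_nsmul]
      have : i • b + (N - h) • b + (h • b - c) = i • b + ((N - h) • b + h • b) - c := by abel
      rw [this, e3]
      simp
    rw [e, g.mem_iff (Nat.mod_lt _ hN) (by omega)]
    simp
  · have e : i • b + j • c - c = i • b + (j - 1) • c := by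
      have h3 : j = (j - 1) + 1 := by omega
      conv_lhs => rw [h3, succ_nsmul]
      abel
    rw [e, g.mem_iff hi (by omega)]
    constructor
    · intro h; exact Or.inl ⟨h0, h⟩
    · rintro (h | h)
      · exact h.2
      · omega

theorem Grid.e2_iff (g : Grid b c N q h) {I : ℕ → ℕ → Prop} {i j : ℕ} (hi : i < N) (hj : j < q) :
    (i • b + j • c ∈ DI b c N q I ∨ i • b + j • c - b ∈ DI b c N q I) ↔ e2 N I i j := by
  rw [g.mem_iff hi hj, g.sub_b hi hj, e2]

theorem Grid.e1_iff (g : Grid b c N q h) {I : ℕ → ℕ → Prop} {i j : ℕ} (hi : i < N) (hj : j < q) :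
    (i • b + j • c ∈ DI b c N q I ∨ i • b + j • c - c ∈ DI b c N q I) ↔ e1 N q h I i j := by
  rw [g.mem_iff hi hj, g.sub_c hi hj, e1]

/-- the combinatorial description of the connected components of the switched graphs:
`E` is the condition for the moves in the first direction, `F` for the second one -/
structure Moves {α : Type*} (N q h : ℕ) (E F : ℕ → ℕ → Prop) (C : ℕ → ℕ → α) : Prop where
  per : ∀ i j, C (i + N) j = C i j
  right : ∀ i j, i < N → j < q → E i j → C i j = C (i + 1) j
  up : ∀ i j, i < N → j + 1 < q → F i j → C i j = C i (j + 1)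
  close : ∀ i, i < N → F i (q - 1) → C i (q - 1) = C (i + h) 0

theorem Grid.connected_aux (g : Grid b c N q h) (H : SimpleGraph G) (E F : ℕ → ℕ → Prop)
    (hE : ∀ i j, i < N → j < q → E i j → H.Adj (i • b + j • c) (i • b + j • c + b))
    (hF : ∀ i j, i < N → j < q → F i j → H.Adj (i • b + j • c) (i • b + j • c + c))
    (key : ∀ {α : Type u} (C : ℕ → ℕ → α), Moves N q h E F C → ∀ i j, i < N → j < q →
      C i j = C 0 0) : H.Connected := by
  have hm : Moves N q h E F
      (fun i j => H.connectedComponentMk (i • b + j • c)) := by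
    refine ⟨?_, ?_, ?_, ?_⟩
    · intro i j
      simp only [add_nsmul, g.per, add_zero]
    · intro i j hi hj he
      refine ConnectedComponent.sound (Adj.reachable ?_)
      have := hE i j hi hj he
      have e : i • b + j • c + b = (i + 1) • b + j • c := by rw [succ_nsmul]; abel
      rwa [e] at this
    · intro i j hi hj he
      refine ConnectedComponent.sound (Adj.reachable ?_)
      have := hF i j hi (by omega) he
      have e : i • b + j • c + c = i • b + (j + 1) • c := by rw [succ_nsmul]; abel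
      rwa [e] at this
    · intro i hi he
      refine ConnectedComponent.sound (Adj.reachable ?_)
      have := hF i (q - 1) hi (by have := g.hq; omega) he
      have e : i • b + (q - 1) • c + c = (i + h) • b + 0 • c := by
        have h2 := g.close
        have h3 : q = (q - 1) + 1 := by have := g.hq; omega
        rw [h3, succ_nsmul] at h2
        rw [add_assoc, h2, add_nsmul, zero_nsmul, add_zero]
      rwa [e] at this
  have h2 := key _ hm
  rw [connected_iff_exists_forall_reachable]
  refine ⟨0 • b + 0 • c, fun x => ?_⟩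
  obtain ⟨i, j, hi, hj, rfl⟩ := g.surj x
  have := h2 i j hi hj
  exact (ConnectedComponent.exact this).symm

/-- the criterion: a set of indices of squares gives two Hamilton cycles -/
theorem Grid.twoHam (g : Grid b c N q h) (nd : Nondeg b c) (I : ℕ → ℕ → Prop)
    (hb : ∀ i j, i < N → j < q → I i j → ¬ ((1 ≤ i ∧ I (i - 1) j) ∨ (i = 0 ∧ I (N - 1) j)))
    (hc : ∀ i j, i < N → j < q → I i j →
      ¬ ((1 ≤ j ∧ I i (j - 1)) ∨ (j = 0 ∧ I ((i + (N - h)) % N) (q - 1))))
    (hH : ∀ {α : Type u} (C : ℕ → ℕ → α), Moves N q h (fun i j => ¬ e1 N q h I i j)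
      (fun i j => e2 N I i j) C → ∀ i j, i < N → j < q → C i j = C 0 0)
    (hV : ∀ {α : Type u} (C : ℕ → ℕ → α), Moves N q h (fun i j => e1 N q h I i j)
      (fun i j => ¬ e2 N I i j) C → ∀ i j, i < N → j < q → C i j = C 0 0) : TwoHam b c := by
  refine twoHam_of nd (D := DI b c N q I) ?_ ?_ ?_ ?_
  · rintro x ⟨i, j, hi, hj, hI, rfl⟩
    rw [g.sub_b hi hj]
    exact hb i j hi hj hI
  · rintro x ⟨i, j, hi, hj, hI, rfl⟩
    rw [g.sub_c hi hj]
    exact hc i j hi hj hI
  · refine g.connected_aux _ _ _ ?_ ?_ hH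
    · intro i j hi hj he
      rw [sw_adj nd]
      refine Or.inl ⟨rfl, ?_⟩
      rw [g.e1_iff hi hj]
      exact he
    · intro i j hi hj he
      rw [sw_adj nd]
      refine Or.inr (Or.inr (Or.inl ⟨rfl, ?_⟩))
      rw [g.e2_iff hi hj]
      exact he
  · refine g.connected_aux _ _ _ ?_ ?_ hV
    · intro i j hi hj he
      rw [sw_adj nd.symm]
      refine Or.inr (Or.inr (Or.inl ⟨rfl, ?_⟩))
      rw [g.e1_iff hi hj]
      exact he
    · intro i j hi hj he
      rw [sw_adj nd.symm]
      refine Or.inl ⟨rfl, ?_⟩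
      rw [g.e2_iff hi hj]
      exact he

end Pool.Agent.Helper71.HD
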