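import Pool.Agent.Helper4.Sel.HamDec

/-!
# Switching squares in the Cayley graph of two elements

`sw b c D` is the graph obtained from the `b`-cycles by exchanging, in every square
`x, x + b, x + b + c, x + c` with `x ∈ D`, the two `b`-edges with the two `c`-edges.
-/

namespace Pool.Agent.Helper71.HD

open SimpleGraph

variable {G : Type*} [AddCommGroup G]

/-- the switched graph of the `b`-cycles -/
def sw (b c : G) (D : Set G) : SimpleGraph G :=
  SimpleGraph.fromRel fun x y =>
    (y = x + b ∧ ¬ (x ∈ D ∨ x - c ∈ D)) ∨ (y = x + c ∧ (x ∈ D ∨ x - b ∈ D))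

/-- two Hamilton cycles decomposing the Cayley graph -/
def TwoHam (b c : G) : Prop :=
  ∃ H V : SimpleGraph G, (H.Connected ∧ ∀ v, (H.neighborSet v).encard = 2) ∧
    (V.Connected ∧ ∀ v, (V.neighborSet v).encard = 2) ∧
    H ≤ circulantGraph {b, c} ∧ V ≤ circulantGraph {b, c} ∧
    ∀ x y, (circulantGraph {b, c}).Adj x y →
      (H.Adj x y ∧ ¬ V.Adj x y) ∨ (¬ H.Adj x y ∧ V.Adj x y)

theorem TwoHam.symm {b c : G} (h : TwoHam b c) : TwoHam c b := by
  obtain ⟨H, V, hH, hV, h1, h2, h3⟩ := h
  rw [Set.pair_comm] at h1 h2 h3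
  exact ⟨H, V, hH, hV, h1, h2, h3⟩

theorem circ_neg (b c : G) : circulantGraph {-b, c} = circulantGraph {b, c} := by
  ext x y
  simp only [circulantGraph, fromRel_adj, Set.mem_insert_iff, Set.mem_singleton_iff]
  have e1 : x - y = -b ↔ y - x = b := by
    rw [← neg_sub, neg_inj]
  have e2 : y - x = -b ↔ x - y = b := by
    rw [← neg_sub, neg_inj]
  rw [e1, e2]
  tauto

theorem TwoHam.neg {b c : G} (h : TwoHam (-b) c) : TwoHam b c := by
  unfold TwoHam at h ⊢
  rwa [circ_neg] at h

theorem sw_le (b c : G) (D : Set G) : sw b c D ≤ circulantGraph {b, c} := by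
  intro x y h
  simp only [sw, circulantGraph, fromRel_adj, Set.mem_insert_iff, Set.mem_singleton_iff] at h ⊢
  refine ⟨h.1, ?_⟩
  rcases h.2 with (⟨h, -⟩ | ⟨h, -⟩) | (⟨h, -⟩ | ⟨h, -⟩)
  · exact Or.inr (Or.inl (by rw [h]; abel))
  · exact Or.inr (Or.inr (by rw [h]; abel))
  · exact Or.inl (Or.inl (by rw [h]; abel))
  · exact Or.inl (Or.inr (by rw [h]; abel))

/-- nondegeneracy of a pair -/
structure Nondeg (b c : G) : Prop where
  bb : b + b ≠ 0
  cc : c + c ≠ 0
  ne : b ≠ c
  ne' : b + c ≠ 0

theorem Nondeg.symm {b c : G} (h : Nondeg b c) : Nondeg c b :=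
  ⟨h.cc, h.bb, h.ne.symm, by rw [add_comm]; exact h.ne'⟩

theorem Nondeg.b0 {b c : G} (h : Nondeg b c) : b ≠ 0 := fun h0 => h.bb (by rw [h0, add_zero])

/-- adjacency in the switched graph, all cases -/
theorem sw_adj {b c : G} (h : Nondeg b c) (D : Set G) (x y : G) :
    (sw b c D).Adj x y ↔
      (y = x + b ∧ ¬ (x ∈ D ∨ x - c ∈ D)) ∨ (y = x - b ∧ ¬ (x - b ∈ D ∨ x - b - c ∈ D)) ∨
      (y = x + c ∧ (x ∈ D ∨ x - b ∈ D)) ∨ (y = x - c ∧ (x - c ∈ D ∨ x - b - c ∈ D)) := by
  simp only [sw, fromRel_adj]
  constructor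
  · rintro ⟨hne, (⟨h1, h2⟩ | ⟨h1, h2⟩) | (⟨h1, h2⟩ | ⟨h1, h2⟩)⟩
    · exact Or.inl ⟨h1, h2⟩
    · exact Or.inr (Or.inr (Or.inl ⟨h1, h2⟩))
    · have : y = x - b := by rw [h1]; abel
      subst this
      exact Or.inr (Or.inl ⟨rfl, h2⟩)
    · have : y = x - c := by rw [h1]; abel
      subst this
      rw [sub_right_comm x c b] at h2
      exact Or.inr (Or.inr (Or.inr ⟨rfl, h2⟩))
  · rintro (⟨h1, h2⟩ | ⟨h1, h2⟩ | ⟨h1, h2⟩ | ⟨h1, h2⟩)
    · refine ⟨fun e => h.b0 ?_, Or.inl (Or.inl ⟨h1, h2⟩)⟩
      rw [h1] at e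
      exact (left_eq_add.1 e)
    · subst h1
      refine ⟨fun e => h.b0 ?_, Or.inr (Or.inl ⟨by abel, h2⟩)⟩
      exact (sub_eq_self.1 e.symm)
    · refine ⟨fun e => h.symm.b0 ?_, Or.inl (Or.inr ⟨h1, h2⟩)⟩
      rw [h1] at e
      exact (left_eq_add.1 e)
    · subst h1
      rw [sub_right_comm x b c] at h2
      refine ⟨fun e => h.symm.b0 ?_, Or.inr (Or.inr ⟨by abel, h2⟩)⟩
      exact (sub_eq_self.1 e.symm)

theorem sw_encard {b c : G} (h : Nondeg b c) {D : Set G} (hb : ∀ x ∈ D, x - b ∉ D)
    (hc : ∀ x ∈ D, x - c ∉ D) (x : G) : ((sw b c D).neighborSet x).encard = 2 := by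
  have e : (sw b c D).neighborSet x = {y |
      (y = x + b ∧ ¬ (x ∈ D ∨ x - c ∈ D)) ∨ (y = x - b ∧ ¬ (x - b ∈ D ∨ x - b - c ∈ D)) ∨
      (y = x + c ∧ (x ∈ D ∨ x - b ∈ D)) ∨ (y = x - c ∧ (x - c ∈ D ∨ x - b - c ∈ D))} := by
    ext y
    rw [mem_neighborSet, sw_adj h]
    rfl
  rw [e]
  have n1 : x + b ≠ x - b := fun e => h.bb (by
    have := congrArg (fun z => z - x + b) e
    simpa using this)
  have n2 : x + c ≠ x - c := fun e => h.cc (by
    have := congrArg (fun z => z - x + c) e
    simpa using this)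
  have n3 : x + b ≠ x + c := fun e => h.ne (add_left_cancel e)
  have n4 : x + b ≠ x - c := fun e => h.ne' (by
    have := congrArg (fun z => z - x + c) e
    simpa using this)
  have n5 : x - b ≠ x + c := fun e => h.ne' (by
    have := congrArg (fun z => z - x + b) e
    simp only [sub_sub_cancel_left, add_sub_cancel_left] at this
    rw [neg_add_cancel, add_comm] at this
    exact this.symm)
  have n6 : x - b ≠ x - c := fun e => h.ne (sub_right_injective e)
  have q1 : x ∈ D → x - b ∉ D := hb x
  have q2 : x ∈ D → x - c ∉ D := hc x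
  have q3 : x - b ∈ D → x - b - c ∉ D := hc _
  have q4 : x - c ∈ D → x - b - c ∉ D := fun hh => by
    have := hb _ hh
    rwa [sub_right_comm] at this
  have key : ∀ u v : G, u ≠ v → ({y | y = u ∨ y = v} : Set G).encard = 2 := by
    intro u v huv
    exact Set.encard_pair huv
  by_cases p : x ∈ D
  · have q := q1 p
    have r := q2 p
    by_cases s : x - b - c ∈ D
    · simp only [p, q, r, s, or_true, true_or, or_false, false_or, not_true, not_false_iff,
        and_true, and_false]
      exact key _ _ n2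
    · simp only [p, q, r, s, or_true, true_or, or_false, false_or, not_true, not_false_iff,
        and_true, and_false]
      exact key _ _ n5
  · by_cases q : x - b ∈ D
    · have s := q3 q
      by_cases r : x - c ∈ D
      · simp only [p, q, r, s, or_true, true_or, or_false, false_or, not_true, not_false_iff,
          and_true, and_false]
        exact key _ _ n2
      · simp only [p, q, r, s, or_true, true_or, or_false, false_or, not_true, not_false_iff,
          and_true, and_false]
        exact key _ _ n3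
    · by_cases r : x - c ∈ D
      · have s := q4 r
        simp only [p, q, r, s, or_true, true_or, or_false, false_or, not_true, not_false_iff,
          and_true, and_false]
        exact key _ _ n6
      · by_cases s : x - b - c ∈ D
        · simp only [p, q, r, s, or_true, true_or, or_false, false_or, not_true, not_false_iff,
            and_true, and_false]
          exact key _ _ n4
        · simp only [p, q, r, s, or_true, true_or, or_false, false_or, not_true, not_false_iff,
            and_true, and_false]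
          exact key _ _ n1

theorem sw_xor {b c : G} (h : Nondeg b c) {D : Set G} (x y : G)
    (hxy : (circulantGraph {b, c}).Adj x y) :
    ((sw b c D).Adj x y ∧ ¬ (sw c b D).Adj x y) ∨ (¬ (sw b c D).Adj x y ∧ (sw c b D).Adj x y) := by
  have hxy' : y = x + b ∨ y = x - b ∨ y = x + c ∨ y = x - c := by
    simp only [circulantGraph, fromRel_adj, Set.mem_insert_iff, Set.mem_singleton_iff] at hxy
    rcases hxy.2 with (h | h) | (h | h)
    · right; left; rw [← h]; abel
    · right; right; right; rw [← h]; abel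
    · left; rw [← h]; abel
    · right; right; left; rw [← h]; abel
  have n1 : x + b ≠ x - b := fun e => h.bb (by
    have := congrArg (fun z => z - x + b) e
    simpa using this)
  have n2 : x + c ≠ x - c := fun e => h.cc (by
    have := congrArg (fun z => z - x + c) e
    simpa using this)
  have n3 : x + b ≠ x + c := fun e => h.ne (add_left_cancel e)
  have n4 : x + b ≠ x - c := fun e => h.ne' (by
    have := congrArg (fun z => z - x + c) e
    simpa using this)
  have n5 : x - b ≠ x + c := fun e => h.ne' (by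
    have := congrArg (fun z => z - x + b) e
    simp only [sub_sub_cancel_left, add_sub_cancel_left] at this
    rw [neg_add_cancel, add_comm] at this
    exact this.symm)
  have n6 : x - b ≠ x - c := fun e => h.ne (sub_right_injective e)
  rw [sw_adj h, sw_adj h.symm]
  rw [sub_right_comm x c b]
  rcases hxy' with rfl | rfl | rfl | rfl
  · simp only [true_and, n1, n3, n4, false_and, false_or, or_false]
    tauto
  · simp only [true_and, n1.symm, n5, n6, false_and, false_or, or_false]
    tauto
  · simp only [true_and, n2, n3.symm, n5.symm, false_and, false_or, or_false]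
    tauto
  · simp only [true_and, n2.symm, n4.symm, n6.symm, false_and, false_or, or_false]
    tauto

theorem twoHam_of {b c : G} (h : Nondeg b c) {D : Set G} (hb : ∀ x ∈ D, x - b ∉ D)
    (hc : ∀ x ∈ D, x - c ∉ D) (hH : (sw b c D).Connected) (hV : (sw c b D).Connected) :
    TwoHam b c :=
  ⟨sw b c D, sw c b D, ⟨hH, sw_encard h hb hc⟩, ⟨hV, sw_encard h.symm hc hb⟩, sw_le _ _ _,
    by rw [Set.pair_comm]; exact sw_le _ _ _, sw_xor h⟩

/-- from two Hamilton cycles to `HamDec` -/
theorem TwoHam.hamDec {b c : G} (hbc : b ≠ c) (h : TwoHam b c) :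
    Pool.Agent.Helper4.Sel.HamDec G ({b, c} : Set G) := by
  classical
  obtain ⟨H, V, hH, hV, h1, h2, h3⟩ := h
  refine ⟨fun z => if z.1 = b then H else V, ?_, ?_, ?_⟩
  · intro z
    dsimp only
    split_ifs
    · exact hH
    · exact hV
  · intro z
    dsimp only
    split_ifs
    · exact h1
    · exact h2
  · intro x y hxy
    have hb : b ∈ ({b, c} : Set G) := by simp
    have hc : c ∈ ({b, c} : Set G) := by simp
    rcases h3 x y hxy with ⟨p, q⟩ | ⟨p, q⟩
    · refine ⟨⟨b, hb⟩, by simpa using p, ?_⟩
      rintro ⟨z, hz⟩ hz'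
      dsimp only at hz'
      split_ifs at hz' with hzb
      · subst hzb; rfl
      · exact absurd hz' q
    · refine ⟨⟨c, hc⟩, by simpa [hbc.symm] using q, ?_⟩
      rintro ⟨z, hz⟩ hz'
      dsimp only at hz'
      split_ifs at hz' with hzb
      · exact absurd hz' p
      · rcases hz with hz | hz
        · exact absurd hz hzb
        · rw [Set.mem_singleton_iff] at hz
          subst hz
          rfl

end Pool.Agent.Helper71.HD
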