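import Pool.Agent.Helper71.HD.Zig

/-!
# Two vertical cycles and an odd number of layers: the closed zigzag
-/

namespace Pool.Agent.Helper71.HD

universe u

variable {α : Type u} {N q h : ℕ} {C : ℕ → ℕ → α}

/-- squares `(j mod 2, j)`, `j ≤ q - 1` -/
def Ic (q i j : ℕ) : Prop := i = j % 2 ∧ j < q

theorem mod_h (hh : 0 < h) (hhN : h < N) {i : ℕ} (hi : i < N) :
    (i + (N - h)) % N = 0 ↔ i = h := by
  constructor
  · intro hm
    rcases Nat.lt_or_ge i h with h1 | h1
    · rw [Nat.mod_eq_of_lt (by omega)] at hm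
      omega
    · rw [Nat.mod_eq_sub_mod (by omega), Nat.mod_eq_of_lt (by omega)] at hm
      omega
  · rintro rfl
    rw [show i + (N - i) = N by omega, Nat.mod_self]

theorem e1_ic (hq : 3 ≤ q) (hq2 : q % 2 = 1) (hh : 0 < h) (hhN : h < N) {i j : ℕ} (hi : i < N)
    (hj : j < q) : e1 N q h (Ic q) i j ↔ (1 ≤ j ∧ i ≤ 1) ∨ (j = 0 ∧ (i = 0 ∨ i = h)) := by
  have h1 := mod_h hh hhN hi
  simp only [e1, Ic]
  have h2 : (q - 1) % 2 = 0 := by omega
  rw [h2, h1]
  omega

theorem zigcH (hN : 4 ≤ N) (hq : 3 ≤ q) (hq2 : q % 2 = 1) (hh : 2 ≤ h) (hhN : h + 2 ≤ N)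
    (m : Moves N q h (fun i j => ¬ e1 N q h (Ic q) i j) (fun i j => e2 N (Ic q) i j) C) :
    ∀ i j, i < N → j < q → C i j = C 0 0 := by
  have ee : ∀ i j, i < N → j < q →
      (e1 N q h (Ic q) i j ↔ (1 ≤ j ∧ i ≤ 1) ∨ (j = 0 ∧ (i = 0 ∨ i = h))) :=
    fun i j hi hj => e1_ic hq hq2 (by omega) (by omega) hi hj
  have wrap : ∀ j, C N j = C 0 j := by
    intro j
    have := m.per 0 j
    rwa [zero_add] at this
  have a1 : ∀ i j, 1 ≤ j → 2 ≤ i → i ≤ N → j < q → C i j = C 0 j := by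
    intro i j h1 h2 hiN hj
    rw [m.row hj hiN le_rfl (fun k h1 h3 => by rw [ee k j (by omega) hj]; omega), wrap]
  have a2 : ∀ j, j < q → C 0 j = C 0 0 := by
    intro j
    induction j with
    | zero => intro _; rfl
    | succ j ih =>
      intro hj
      rw [← ih (by omega)]
      rcases Nat.mod_two_eq_zero_or_one j with h0 | h0
      · exact (m.up 0 j (by omega) hj (by simp only [e2, Ic]; omega)).symm
      · rw [← a1 2 j (by omega) le_rfl (by omega) (by omega),
          ← a1 2 (j + 1) (by omega) le_rfl (by omega) (by omega)]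
        exact (m.up 2 j (by omega) hj (by simp only [e2, Ic]; omega)).symm
  have a4 : ∀ i, h + 1 ≤ i → i < N → C i 0 = C 0 0 := by
    intro i h1 h2
    rw [m.row (by omega) h2.le le_rfl (fun k h1 h3 => by rw [ee k 0 (by omega) (by omega)]; omega),
      wrap]
  have a3 : ∀ j, j < q → C 1 j = C 0 0 := by
    have b1 : ∀ j, j < q → C 1 j = C 1 (q - 1) := fun j hj =>
      m.column (by omega) (by omega) (by omega) (fun k _ h2 => by simp only [e2, Ic]; omega)
    intro j hj
    rw [b1 j hj, m.close 1 (by omega) (by simp only [e2, Ic]; omega), add_comm]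
    exact a4 _ le_rfl (by omega)
  have a5 : ∀ i, 1 ≤ i → i ≤ h → C i 0 = C 0 0 := by
    intro i h1 h2
    rw [← m.row (by omega) h1 (by omega)
      (fun k h1 h3 => by rw [ee k 0 (by omega) (by omega)]; omega)]
    exact a3 0 (by omega)
  intro i j hi hj
  rcases Nat.eq_zero_or_pos j with h0 | h0
  · subst h0
    rcases Nat.eq_zero_or_pos i with h1 | h1
    · rw [h1]
    rcases Nat.lt_or_ge h i with h2 | h2
    · exact a4 i h2 hi
    · exact a5 i h1 h2
  rcases Nat.lt_or_ge i 2 with h2 | h2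
  · interval_cases i
    · exact a2 j hj
    · exact a3 j hj
  · rw [a1 i j h0 h2 hi.le hj, a2 j hj]

theorem zigcV (hN : 4 ≤ N) (hq : 3 ≤ q) (hq2 : q % 2 = 1) (hh : 2 ≤ h) (hhN : h + 2 ≤ N)
    (hg : Nat.gcd N h = 2)
    (m : Moves N q h (fun i j => e1 N q h (Ic q) i j) (fun i j => ¬ e2 N (Ic q) i j) C) :
    ∀ i j, i < N → j < q → C i j = C 0 0 := by
  have hN0 : 0 < N := by omega
  have hq0 : 0 < q := by omega
  have ee : ∀ i j, i < N → j < q →
      (e1 N q h (Ic q) i j ↔ (1 ≤ j ∧ i ≤ 1) ∨ (j = 0 ∧ (i = 0 ∨ i = h))) :=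
    fun i j hi hj => e1_ic hq hq2 (by omega) (by omega) hi hj
  have cl : ∀ i, i < N → ¬ (i ≤ 2) → ∀ j, j < q → ¬ e2 N (Ic q) i j := by
    intro i hi hi2 j hj
    simp only [e2, Ic]
    omega
  have rows : ∀ j, 1 ≤ j → j < q → C 0 j = C 2 j ∧ C 1 j = C 2 j := by
    intro j h1 h2
    have e0 := m.right 0 j (by omega) (by omega) (by rw [ee 0 j (by omega) h2]; omega)
    have e1 := m.right 1 j (by omega) (by omega) (by rw [ee 1 j (by omega) h2]; omega)
    exact ⟨e0.trans e1, e1⟩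
  have s1 : ∀ j, j < q → C 2 j = C 2 0 := by
    intro j
    induction j with
    | zero => intro _; rfl
    | succ j ih =>
      intro h2
      rw [← ih (by omega)]
      rcases Nat.mod_two_eq_zero_or_one j with h0 | h0
      · exact (m.up 2 j (by omega) (by omega) (by simp only [e2, Ic]; omega)).symm
      · rw [← (rows j (by omega) (by omega)).1, ← (rows (j + 1) (by omega) (by omega)).1]
        exact (m.up 0 j (by omega) (by omega) (by simp only [e2, Ic]; omega)).symm
  have b0 : C 0 0 = C 1 0 :=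
    m.right 0 0 (by omega) (by omega) (by rw [ee 0 0 (by omega) (by omega)]; omega)
  have p : C 2 (q - 1) = C 0 0 := by
    refine m.arc_pair (T := fun i => i ≤ 2) hN0 hq0 cl (by omega) (by omega) (by omega)
      (by simp only [e2, Ic]; omega) (by rw [hg]; rfl) ?_
    intro s _ hs hs2
    rw [hg, Nat.ModEq] at hs2
    omega
  have c2 : ∀ j, j < q → C 2 j = C 0 0 := by
    intro j hj
    rw [s1 j hj, ← s1 (q - 1) (by omega), p]
  refine m.all_of_touched (T := fun i => i ≤ 2) hN0 hq0 cl ?_ _ ?_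
  · intro i hi
    refine ⟨i % 2, by omega, by omega, ?_⟩
    rw [hg]
    exact (Nat.mod_modEq _ _).symm
  · intro t ht htT j hj
    rcases Nat.eq_zero_or_pos j with h0 | h0
    · subst h0
      interval_cases t
      · rfl
      · exact b0.symm
      · exact c2 0 (by omega)
    · interval_cases t
      · rw [(rows j h0 hj).1, c2 j hj]
      · rw [(rows j h0 hj).2, c2 j hj]
      · exact c2 j hj

theorem ic_hb (hN : 4 ≤ N) : ∀ i j, i < N → j < q → Ic q i j →
    ¬ ((1 ≤ i ∧ Ic q (i - 1) j) ∨ (i = 0 ∧ Ic q (N - 1) j)) := by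
  intro i j hi hj
  simp only [Ic]
  omega

theorem ic_hc (hN : 4 ≤ N) (hq : 3 ≤ q) (hq2 : q % 2 = 1) (hh : 2 ≤ h) (hhN : h + 2 ≤ N) :
    ∀ i j, i < N → j < q → Ic q i j →
    ¬ ((1 ≤ j ∧ Ic q i (j - 1)) ∨ (j = 0 ∧ Ic q ((i + (N - h)) % N) (q - 1))) := by
  intro i j hi hj
  have h1 := mod_h (by omega : 0 < h) (by omega) hi
  have h2 : (q - 1) % 2 = 0 := by omega
  simp only [Ic]
  rw [h2, h1]
  omega

end Pool.Agent.Helper71.HD
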