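import Pool.Agent.Helper71.HD.Zig
import Pool.Agent.Helper71.HD.ZigC
import Pool.Agent.Helper71.HD.Chain

/-!
# Hamilton decompositions of Cayley graphs with two generators
-/

namespace Pool.Agent.Helper71.HD

universe u

section moves

variable {α : Type u} {N q h a : ℕ} {C : ℕ → ℕ → α}

theorem id_top (hq : 3 ≤ q) (i : ℕ) : ¬ e2 N (Id a q) i (q - 1) := by
  simp only [e2, Id]
  omega

theorem id_clean (haN : a + 2 ≤ N) : ∀ i, i < N → ¬ (i ≤ a + 2) → ∀ j, j < q →
    ¬ e2 N (Id a q) i j := by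
  intro i hi h1 j hj
  simp only [e2, Id]
  omega

theorem chV_odd (ha : a % 2 = 1) (hN : 0 < N) (hh : h < N) (hq : 3 ≤ q)
    (hg : Nat.gcd N h = a + 2)
    (m : Moves N q h (fun i j => e1 N q h (Id a q) i j) (fun i j => ¬ e2 N (Id a q) i j) C) :
    ∀ i j, i < N → j < q → C i j = C 0 0 := by
  have hgN : a + 2 ∣ N := hg ▸ Nat.gcd_dvd_left N h
  have haN : a + 2 ≤ N := Nat.le_of_dvd hN hgN
  have hq0 : 0 < q := by omega
  have wrap : ∀ j, C N j = C 0 j := by
    intro j
    have := m.per 0 j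
    rwa [zero_add] at this
  rcases Nat.lt_or_ge (a + 2) N with hlt | hge
  · have cl := id_clean (N := N) (q := q) haN
    have uni : ∀ t, 1 ≤ t → t ≤ a + 1 → ∀ s, s < N → s ≤ a + 2 →
        s ≡ t [MOD (Nat.gcd N h)] → s = t := by
      intro t h1 h2 s h3 h4 h5
      rw [hg, Nat.ModEq, Nat.mod_eq_of_lt (by omega : t < a + 2)] at h5
      rcases Nat.lt_or_ge s (a + 2) with h6 | h6
      · rwa [Nat.mod_eq_of_lt h6] at h5
      · have : s = a + 2 := by omega
        rw [this, Nat.mod_self] at h5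
        omega
    have uni0 : ∀ s, s < N → s ≤ a + 2 → s ≡ 0 [MOD (Nat.gcd N h)] → s = 0 ∨ s = a + 2 := by
      intro s h3 h4 h5
      rw [hg, Nat.ModEq, Nat.zero_mod] at h5
      rcases Nat.lt_or_ge s (a + 2) with h6 | h6
      · rw [Nat.mod_eq_of_lt h6] at h5
        exact Or.inl h5
      · exact Or.inr (by omega)
    have hz : a + 2 ≡ 0 [MOD (Nat.gcd N h)] := by
      rw [hg, Nat.ModEq, Nat.mod_self, Nat.zero_mod]
    have A : ∀ t, 1 ≤ t → t ≤ a + 1 → C t (q - 1) = C t 0 := fun t h1 h2 =>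
      m.arc_unique (T := fun i => i ≤ a + 2) hN hq0 cl (by omega) (by omega) (id_top hq t)
        (uni t h1 h2)
    have F1 : C (a + 2) (q - 1) = C 0 0 :=
      m.arc_pair (T := fun i => i ≤ a + 2) hN hq0 cl hlt hN (by omega) (id_top hq _) hz
        (fun s h1 h2 h3 => (uni0 s h1 h2 (h3.trans hz)).symm)
    have P : C 0 (q - 1) = C (a + 2) 0 :=
      m.arc_pair (T := fun i => i ≤ a + 2) hN hq0 cl hN hlt (by omega) (id_top hq _) hz.symm
        (fun s h1 h2 h3 => uni0 s h1 h2 h3)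
    have col0 : ∀ j, 2 ≤ j → j < q → C 0 j = C 0 (q - 1) := fun j h1 h2 =>
      m.column hN (by omega) (by omega) (fun k _ _ => by simp only [e2, Id]; omega)
    have colg : ∀ j, j ≤ 2 → C (a + 2) j = C (a + 2) 2 := fun j h1 =>
      m.column hlt h1 (by omega) (fun k _ _ => by simp only [e2, Id]; omega)
    have F2 : C (a + 2) 2 = C 0 2 := by
      rw [col0 2 le_rfl (by omega), P, colg 0 (by omega)]
    obtain ⟨r1, r2, r3⟩ := chV_core ha haN hq m F1 F2 A
    refine m.all_of_touched (T := fun i => i ≤ a + 2) hN hq0 cl ?_ _ ?_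
    · intro i hi
      refine ⟨i % (a + 2), lt_of_le_of_lt (Nat.mod_le _ _) hi,
        (Nat.mod_lt _ (by omega)).le, ?_⟩
      rw [hg]
      exact (Nat.mod_modEq _ _).symm
    · intro t ht htT j hj
      rcases Nat.eq_zero_or_pos t with h0 | h0
      · subst h0
        rcases Nat.lt_or_ge j 2 with h1 | h1
        · exact r2 j (by omega)
        · rw [col0 j h1 hj, ← col0 2 le_rfl (by omega), r2 2 le_rfl]
      rcases Nat.lt_or_ge (a + 1) t with h1 | h1
      · have : t = a + 2 := by omega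
        subst this
        rcases Nat.lt_or_ge j 2 with h1 | h1
        · rw [colg j (by omega), r3 2 le_rfl (by omega)]
        · exact r3 j h1 hj
      · exact r1 t j h0 h1 hj
  · have haN' : a + 2 = N := by omega
    have h0 : h = 0 := by
      rw [haN'] at hg
      have h1 : N ∣ h := hg ▸ Nat.gcd_dvd_right N h
      exact Nat.eq_zero_of_dvd_of_lt h1 hh
    subst h0
    have A : ∀ t, t < N → C t (q - 1) = C t 0 := fun t h1 => m.close t h1 (id_top hq t)
    obtain ⟨r1, r2, r3⟩ := chV_core ha haN hq m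
      (by rw [haN', wrap]; exact A 0 hN) (by rw [haN', wrap]) (fun t _ h2 => A t (by omega))
    intro i j hi hj
    rcases Nat.eq_zero_or_pos i with h0 | h0
    · subst h0
      rcases Nat.lt_or_ge j 2 with h1 | h1
      · exact r2 j (by omega)
      · rw [← wrap, ← haN']
        exact r3 j h1 hj
    · exact r1 i j h0 (by omega) hj

theorem chV_even (ha : a % 2 = 1) (hN : 0 < N) (hq : 4 ≤ q) (hq2 : q % 2 = 0)
    (hg : Nat.gcd N h = a + 3)
    (m : Moves N q h (fun i j => e1 N q h (Id a q) i j) (fun i j => ¬ e2 N (Id a q) i j) C) :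
    ∀ i j, i < N → j < q → C i j = C 0 0 := by
  have hgN : a + 3 ∣ N := hg ▸ Nat.gcd_dvd_left N h
  have haN3 : a + 3 ≤ N := Nat.le_of_dvd hN hgN
  have haN : a + 2 ≤ N := by omega
  have hq3 : 3 ≤ q := by omega
  have hq0 : 0 < q := by omega
  have cl := id_clean (N := N) (q := q) haN
  have A : ∀ t, t ≤ a + 2 → C t (q - 1) = C t 0 := by
    intro t h1
    refine m.arc_unique (T := fun i => i ≤ a + 2) hN hq0 cl (by omega) h1 (id_top hq3 t) ?_
    intro s h3 h4 h5
    rw [hg, Nat.ModEq, Nat.mod_eq_of_lt (by omega : t < a + 3),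
      Nat.mod_eq_of_lt (by omega : s < a + 3)] at h5
    exact h5
  have col0 : ∀ j, 2 ≤ j → j < q → C 0 j = C 0 (q - 1) := fun j h1 h2 =>
    m.column hN (by omega) (by omega) (fun k _ _ => by simp only [e2, Id]; omega)
  have colg : ∀ j, j ≤ 2 → C (a + 2) j = C (a + 2) 2 := fun j h1 =>
    m.column (by omega) h1 (by omega) (fun k _ _ => by simp only [e2, Id]; omega)
  have L1 : C 0 1 = C (a + 1) 1 :=
    m.row (by omega) (Nat.zero_le _) (by omega)
      (fun k h1 h3 => by rw [e1_id hq3]; simp only [Id]; omega)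
  have c0 : C 0 1 = C 0 2 := m.up 0 1 (by omega) (by omega) (by simp only [e2, Id]; omega)
  have d0 : C (a + 1) 0 = C (a + 1) 1 :=
    m.up (a + 1) 0 (by omega) (by omega) (by simp only [e2, Id]; omega)
  have t1 : C (a + 1) (q - 1) = C (a + 2) (q - 1) :=
    m.right (a + 1) (q - 1) (by omega) (by omega) (by rw [e1_id hq3]; simp only [Id]; omega)
  have F2 : C (a + 2) 2 = C 0 2 := by
    rw [← colg 0 (by omega), ← A (a + 2) le_rfl, ← t1, A (a + 1) (by omega), d0, ← L1, c0]
  have F1 : C (a + 2) (q - 1) = C 0 0 := by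
    rw [A (a + 2) le_rfl, colg 0 (by omega), F2, col0 2 le_rfl (by omega), A 0 (by omega)]
  obtain ⟨r1, r2, r3⟩ := chV_core ha haN hq3 m F1 F2 (fun t _ h2 => A t (by omega))
  refine m.all_of_touched (T := fun i => i ≤ a + 2) hN hq0 cl ?_ _ ?_
  · intro i hi
    refine ⟨i % (a + 3), lt_of_le_of_lt (Nat.mod_le _ _) hi, ?_, ?_⟩
    · have := Nat.mod_lt i (by omega : 0 < a + 3)
      omega
    · rw [hg]
      exact (Nat.mod_modEq _ _).symm
  · intro t ht htT j hj
    rcases Nat.eq_zero_or_pos t with h0 | h0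
    · subst h0
      rcases Nat.lt_or_ge j 2 with h1 | h1
      · exact r2 j (by omega)
      · rw [col0 j h1 hj, ← col0 2 le_rfl (by omega), r2 2 le_rfl]
    rcases Nat.lt_or_ge (a + 1) t with h1 | h1
    · have : t = a + 2 := by omega
      subst this
      rcases Nat.lt_or_ge j 2 with h1 | h1
      · rw [colg j (by omega), r3 2 le_rfl (by omega)]
      · exact r3 j h1 hj
    · exact r1 t j h0 h1 hj

end moves

variable {G : Type u} [AddCommGroup G] {b c : G} {N q h : ℕ}

theorem Grid.neg (g : Grid b c N q h) (h0 : 0 < h) : Grid (-b) c N q (N - h) := by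
  have hN := g.hN
  have hh := g.hh
  have key : ∀ i, i < N → i • (-b) = ((N - i) % N) • b := by
    intro i hi
    have e : ((N - i) % N) • b = (N - i) • b := by
      conv_rhs => rw [← Nat.mod_add_div (N - i) N]
      rw [add_nsmul, mul_comm, mul_nsmul', g.per, nsmul_zero, add_zero]
    rw [e, neg_nsmul]
    have : (N - i) • b + i • b = 0 := by rw [← add_nsmul, Nat.sub_add_cancel hi.le, g.per]
    exact (eq_neg_of_add_eq_zero_left this).symm
  have key2 : ∀ i, i < N → i • b = ((N - i) % N) • (-b) := by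
    intro i hi
    rw [key _ (Nat.mod_lt _ hN)]
    rcases Nat.eq_zero_or_pos i with h1 | h1
    · subst h1; simp
    · rw [Nat.mod_eq_of_lt (by omega : N - i < N), show N - (N - i) = i by omega,
        Nat.mod_eq_of_lt hi]
  have modinj : ∀ i i', i < N → i' < N → (N - i) % N = (N - i') % N → i = i' := by
    intro i i' hi hi' e
    rcases Nat.eq_zero_or_pos i with h1 | h1 <;> rcases Nat.eq_zero_or_pos i' with h2 | h2
    · omega
    · subst h1
      rw [Nat.sub_zero, Nat.mod_self, Nat.mod_eq_of_lt (by omega : N - i' < N)] at e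
      omega
    · subst h2
      rw [Nat.sub_zero, Nat.mod_self, Nat.mod_eq_of_lt (by omega : N - i < N)] at e
      omega
    · rw [Nat.mod_eq_of_lt (by omega : N - i < N), Nat.mod_eq_of_lt (by omega : N - i' < N)] at e
      omega
  refine ⟨hN, g.hq, by omega, ?_, ?_, ?_, ?_⟩
  · rw [neg_nsmul, g.per, neg_zero]
  · rw [key _ (by omega), show N - (N - h) = h by omega, Nat.mod_eq_of_lt hh, g.close]
  · intro i i' j j' hi hi' hj hj' e
    rw [key i hi, key i' hi'] at e
    obtain ⟨e1, e2⟩ := g.inj _ _ j j' (Nat.mod_lt _ hN) (Nat.mod_lt _ hN) hj hj' e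
    exact ⟨modinj i i' hi hi' e1, e2⟩
  · intro x
    obtain ⟨i, j, hi, hj, rfl⟩ := g.surj x
    exact ⟨(N - i) % N, j, Nat.mod_lt _ hN, hj, by rw [key2 i hi]⟩

theorem Nondeg.neg (nd : Nondeg b c) : Nondeg (-b) c := by
  refine ⟨?_, nd.cc, ?_, ?_⟩
  · intro h
    apply nd.bb
    rw [← neg_eq_zero, neg_add]
    exact h
  · intro h
    apply nd.ne'
    rw [← h, add_neg_cancel]
  · intro h
    apply nd.ne
    exact neg_add_eq_zero.1 h

theorem Grid.twoHam_one_aux (g : Grid b c N q h) (nd : Nondeg b c) (hN : 3 ≤ N) (hq : 2 ≤ q)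
    (hg : Nat.gcd N h = 1) (u : ℕ) (hu : (u * h) % N = 1) (hu1 : 1 ≤ u) (hu2 : 2 * u < N) :
    TwoHam b c :=
  g.twoHam nd (Iz q) (iz_hb hN) (iz_hc hq) (fun _ m => zigH hN hq m)
    (fun _ m => zigV_one hN hq hg u hu hu1 hu2 m)

theorem Grid.twoHam_one (g : Grid b c N q h) (nd : Nondeg b c) (hN : 3 ≤ N) (hq : 2 ≤ q)
    (hg : Nat.gcd N h = 1) : TwoHam b c := by
  have hh := g.hh
  have h0 : 0 < h := by
    rcases Nat.eq_zero_or_pos h with h0 | h0
    · subst h0
      rw [Nat.gcd_zero_right] at hg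
      omega
    · exact h0
  obtain ⟨w, -, hw⟩ := reach_col (h := h) (by omega : 0 < N) 0 1 (by omega)
    (by rw [hg]; exact Nat.modEq_one)
  set u := w % N with hu
  have huN : u < N := Nat.mod_lt _ (by omega)
  have hu1 : (u * h) % N = 1 := by
    rw [hu, Nat.mod_mul_mod]
    rwa [zero_add] at hw
  have hu0 : 1 ≤ u := by
    rcases Nat.eq_zero_or_pos u with h1 | h1
    · rw [h1, zero_mul, Nat.zero_mod] at hu1
      omega
    · exact h1
  rcases Nat.lt_or_ge (2 * u) N with h1 | h1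
  · exact g.twoHam_one_aux nd hN hq hg u hu1 hu0 h1
  have h2 : 2 * u ≠ N := by
    intro e
    have h3 : u * h ≡ 1 [MOD N] := by
      rw [Nat.ModEq, hu1, Nat.mod_eq_of_lt (by omega)]
    have h4 : 2 * (u * h) ≡ 2 * 1 [MOD N] := Nat.ModEq.mul_left 2 h3
    rw [← mul_assoc, e, Nat.ModEq, Nat.mul_mod_right, Nat.mod_eq_of_lt (by omega)] at h4
    omega
  have hgn := g.neg h0
  refine TwoHam.neg (hgn.twoHam_one_aux nd.neg hN hq ?_ (N - u) ?_ (by omega) (by omega))
  · have : Nat.gcd N (N - h) = Nat.gcd N h := Nat.gcd_self_sub_right hh.le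
    rw [this, hg]
  · -- (N - u) (N - h) ≡ u h
    have h3 : (N - u) * (N - h) ≡ u * h [MOD N] := by
      refine Nat.ModEq.add_right_cancel' (u * (N - h)) ?_
      rw [← add_mul, Nat.sub_add_cancel huN.le, ← mul_add, Nat.add_sub_cancel' hh.le]
      exact (Nat.modEq_zero_iff_dvd.2 (dvd_mul_right _ _)).trans
        (Nat.modEq_zero_iff_dvd.2 (dvd_mul_left _ _)).symm
    rw [h3, hu1]

theorem Grid.twoHam_two (g : Grid b c N q h) (nd : Nondeg b c) (hN : 3 ≤ N) (hq : 2 ≤ q)
    (hg : Nat.gcd N h = 2) : TwoHam b c := by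
  have hh := g.hh
  have hNd : 2 ∣ N := hg ▸ Nat.gcd_dvd_left N h
  have hhd : 2 ∣ h := hg ▸ Nat.gcd_dvd_right N h
  have h0 : 0 < h := by
    rcases Nat.eq_zero_or_pos h with h0 | h0
    · subst h0
      rw [Nat.gcd_zero_right] at hg
      omega
    · exact h0
  rcases Nat.mod_two_eq_zero_or_one q with hq2 | hq2
  · exact g.twoHam nd (Iz q) (iz_hb hN) (iz_hc hq) (fun _ m => zigH hN hq m)
      (fun _ m => zigV_two_even hN hq hq2 hg m)
  · exact g.twoHam nd (Ic q) (ic_hb (by omega))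
      (ic_hc (by omega) (by omega) hq2 (by omega) (by omega))
      (fun _ m => zigcH (by omega) (by omega) hq2 (by omega) (by omega) m)
      (fun _ m => zigcV (by omega) (by omega) hq2 (by omega) (by omega) hg m)

theorem Grid.twoHam_odd (g : Grid b c N q h) (nd : Nondeg b c) (hq : 3 ≤ q)
    (hg : 3 ≤ Nat.gcd N h) (hg2 : Nat.gcd N h % 2 = 1) : TwoHam b c := by
  have hN := g.hN
  have hle : Nat.gcd N h ≤ N := Nat.le_of_dvd hN (Nat.gcd_dvd_left N h)
  obtain ⟨a, ha⟩ : ∃ a, Nat.gcd N h = a + 2 := ⟨Nat.gcd N h - 2, by omega⟩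
  exact g.twoHam nd (Id a q) (id_hb (by omega)) (id_hc hq)
    (fun _ m => chH (by omega) (by omega) hq m)
    (fun _ m => chV_odd (by omega) hN g.hh hq ha m)

theorem Grid.twoHam_even (g : Grid b c N q h) (nd : Nondeg b c) (hq : 4 ≤ q) (hq2 : q % 2 = 0)
    (hg : 4 ≤ Nat.gcd N h) (hg2 : Nat.gcd N h % 2 = 0) : TwoHam b c := by
  have hN := g.hN
  have hle : Nat.gcd N h ≤ N := Nat.le_of_dvd hN (Nat.gcd_dvd_left N h)
  obtain ⟨a, ha⟩ : ∃ a, Nat.gcd N h = a + 3 := ⟨Nat.gcd N h - 3, by omega⟩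
  exact g.twoHam nd (Id a q) (id_hb (by omega)) (id_hc (by omega))
    (fun _ m => chH (by omega) (by omega) (by omega) m)
    (fun _ m => chV_even (by omega) hN hq hq2 ha m)

theorem mem_zm (b c : G) (n : ℕ) : n • c ∈ AddSubgroup.zmultiples b ↔
    addOrderOf (QuotientAddGroup.mk c : G ⧸ AddSubgroup.zmultiples b) ∣ n := by
  rw [addOrderOf_dvd_iff_nsmul_eq_zero, ← QuotientAddGroup.mk_nsmul,
    QuotientAddGroup.eq_zero_iff]

theorem mem_zm_int (b c : G) (n : ℤ) : n • c ∈ AddSubgroup.zmultiples b ↔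
    (addOrderOf (QuotientAddGroup.mk c : G ⧸ AddSubgroup.zmultiples b) : ℤ) ∣ n := by
  rw [addOrderOf_dvd_iff_zsmul_eq_zero, ← QuotientAddGroup.mk_zsmul,
    QuotientAddGroup.eq_zero_iff]

theorem Grid.gcd_eq (g : Grid b c (addOrderOf b)
      (addOrderOf (QuotientAddGroup.mk c : G ⧸ AddSubgroup.zmultiples b)) h) :
    Nat.gcd (addOrderOf b) h =
      addOrderOf (QuotientAddGroup.mk b : G ⧸ AddSubgroup.zmultiples c) := by
  set N := addOrderOf b with hN
  have key : ∀ n : ℕ, Nat.gcd N h ∣ n ↔ n • b ∈ AddSubgroup.zmultiples c := by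
    intro n
    constructor
    · rintro ⟨m, rfl⟩
      rw [mul_comm, mul_nsmul']
      refine AddSubgroup.nsmul_mem _ ?_ _
      have hbez := Nat.gcd_eq_gcd_ab N h
      rw [← natCast_zsmul, hbez, add_zsmul, mul_comm (N : ℤ), mul_comm (h : ℤ), mul_zsmul,
        mul_zsmul, natCast_zsmul, natCast_zsmul, g.per, zsmul_zero, zero_add, ← g.close,
        ← natCast_zsmul, ← mul_zsmul]
      exact AddSubgroup.zsmul_mem_zmultiples _ _
    · intro hn
      obtain ⟨z, hz⟩ := AddSubgroup.mem_zmultiples_iff.1 hn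
      have h1 : z • c ∈ AddSubgroup.zmultiples b := by
        rw [hz]
        exact AddSubgroup.nsmul_mem _ (AddSubgroup.mem_zmultiples b) _
      obtain ⟨w, hw⟩ := (mem_zm_int b c z).1 h1
      rw [hw, mul_comm, mul_zsmul, natCast_zsmul, g.close] at hz
      have h2 : ((n : ℤ) - w * h) • b = 0 := by
        rw [sub_zsmul, natCast_zsmul, mul_zsmul, natCast_zsmul, hz, add_neg_cancel]
      have h3 : (N : ℤ) ∣ (n : ℤ) - w * h := by
        rw [hN]
        exact addOrderOf_dvd_iff_zsmul_eq_zero.2 h2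
      have h4 : ((Nat.gcd N h : ℕ) : ℤ) ∣ (n : ℤ) - w * h :=
        (Int.natCast_dvd_natCast.2 (Nat.gcd_dvd_left N h)).trans h3
      have h5 : ((Nat.gcd N h : ℕ) : ℤ) ∣ w * h :=
        dvd_mul_of_dvd_right (Int.natCast_dvd_natCast.2 (Nat.gcd_dvd_right N h)) _
      have h6 := dvd_add h4 h5
      rw [sub_add_cancel] at h6
      exact Int.natCast_dvd_natCast.1 h6
  refine Nat.dvd_antisymm ?_ ?_
  · exact (key _).2 ((mem_zm c b _).2 dvd_rfl)
  · exact (mem_zm c b _).1 ((key _).1 dvd_rfl)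

/-- Cayley graphs with two generators: two Hamilton cycles -/
theorem twoHam {b c : G} (hgen : AddSubgroup.closure {b, c} = ⊤) (hb : 3 ≤ addOrderOf b)
    (hc : 3 ≤ addOrderOf c) (hcb : c ∉ AddSubgroup.zmultiples b) : TwoHam b c := by
  have nd : Nondeg b c := by
    refine ⟨?_, ?_, ?_, ?_⟩
    · intro h
      have : addOrderOf b ∣ 2 := addOrderOf_dvd_of_nsmul_eq_zero (by rw [two_nsmul, h])
      have := Nat.le_of_dvd (by omega) this
      omega
    · intro h
      have : addOrderOf c ∣ 2 := addOrderOf_dvd_of_nsmul_eq_zero (by rw [two_nsmul, h])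
      have := Nat.le_of_dvd (by omega) this
      omega
    · rintro rfl
      exact hcb (AddSubgroup.mem_zmultiples b)
    · intro h
      apply hcb
      rw [← neg_eq_of_add_eq_zero_right h]
      exact neg_mem (AddSubgroup.mem_zmultiples b)
  obtain ⟨h, g⟩ := exists_grid hgen (by omega) (by omega)
  have hgen' : AddSubgroup.closure {c, b} = ⊤ := by rwa [Set.pair_comm]
  obtain ⟨h', g'⟩ := exists_grid hgen' (by omega) (by omega)
  have e := g.gcd_eq
  have e' := g'.gcd_eq
  have q0 := g.hq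
  have q1 : addOrderOf (QuotientAddGroup.mk c : G ⧸ AddSubgroup.zmultiples b) ≠ 1 := by
    intro h1
    rw [AddMonoid.addOrderOf_eq_one_iff, QuotientAddGroup.eq_zero_iff] at h1
    exact hcb h1
  have q0' := g'.hq
  generalize addOrderOf (QuotientAddGroup.mk c : G ⧸ AddSubgroup.zmultiples b) = q at *
  generalize addOrderOf (QuotientAddGroup.mk b : G ⧸ AddSubgroup.zmultiples c) = p at *
  have hq2 : 2 ≤ q := by omega
  rcases Nat.lt_or_ge p 3 with hp | hp
  · rcases Nat.lt_or_ge p 2 with hp2 | hp2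
    · exact g.twoHam_one nd hb hq2 (by omega)
    · exact g.twoHam_two nd hb hq2 (by omega)
  rcases Nat.lt_or_ge q 3 with hq3 | hq3
  · exact (g'.twoHam_two nd.symm hc (by omega) (by omega)).symm
  rcases Nat.mod_two_eq_zero_or_one p with hp2 | hp2
  · rcases Nat.mod_two_eq_zero_or_one q with hq4 | hq4
    · exact g.twoHam_even nd (by omega) hq4 (by omega) (by omega)
    · exact (g'.twoHam_odd nd.symm hp (by omega) (by omega)).symm
  · exact g.twoHam_odd nd hq3 (by omega) (by omega)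

end Pool.Agent.Helper71.HD
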