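import Pool.Agent.Helper71.HD.Arc

/-!
# One or two vertical cycles: the zigzag
-/

namespace Pool.Agent.Helper71.HD

universe u

variable {α : Type u} {N q h : ℕ} {C : ℕ → ℕ → α}

/-- squares `(j mod 2, j)`, `j ≤ q - 2` -/
def Iz (q i j : ℕ) : Prop := i = j % 2 ∧ j + 1 < q

theorem zigH (hN : 3 ≤ N) (hq : 2 ≤ q)
    (m : Moves N q h (fun i j => ¬ e1 N q h (Iz q) i j) (fun i j => e2 N (Iz q) i j) C) :
    ∀ i j, i < N → j < q → C i j = C 0 0 := by
  have wrap : ∀ j, C N j = C 0 j := by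
    intro j
    have := m.per 0 j
    rwa [zero_add] at this
  have a1 : ∀ i j, 2 ≤ i → i ≤ N → j < q → C i j = C 0 j := by
    intro i j h2 hiN hj
    rw [m.row hj hiN le_rfl (fun k h1 h3 => by simp only [e1, Iz]; omega), wrap]
  have a2 : ∀ j, j < q → C 0 j = C 0 0 := by
    intro j
    induction j with
    | zero => intro _; rfl
    | succ j ih =>
      intro hj
      rw [← ih (by omega)]
      rcases Nat.mod_two_eq_zero_or_one j with h0 | h0
      · exact (m.up 0 j (by omega) hj (by simp only [e2, Iz]; omega)).symm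
      · rw [← a1 2 j le_rfl (by omega) (by omega), ← a1 2 (j + 1) le_rfl (by omega) (by omega)]
        exact (m.up 2 j (by omega) hj (by simp only [e2, Iz]; omega)).symm
  have a3 : ∀ j, j < q → C 1 j = C 0 0 := by
    intro j hj
    rw [← m.column (i := 1) (by omega) (Nat.zero_le j) hj
      (fun k _ h2 => by simp only [e2, Iz]; omega),
      m.right 1 0 (by omega) (by omega) (by simp only [e1, Iz]; omega),
      a1 2 0 (by omega) (by omega) (by omega)]
  intro i j hi hj
  rcases Nat.lt_or_ge i 2 with h2 | h2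
  · interval_cases i
    · exact a2 j hj
    · exact a3 j hj
  · rw [a1 i j h2 hi.le hj, a2 j hj]

/-- the arcs of the vertical cycles are given -/
theorem zigV_aux (hN : 3 ≤ N) (hq : 2 ≤ q)
    (m : Moves N q h (fun i j => e1 N q h (Iz q) i j) (fun i j => ¬ e2 N (Iz q) i j) C)
    (arcs : (C 0 (q - 1) = C 1 0 ∧ C 1 (q - 1) = C 2 0 ∧ C 2 (q - 1) = C 0 0) ∨
      (C 0 (q - 1) = C 2 0 ∧ C 2 (q - 1) = C 0 0 ∧ C 1 (q - 1) = C 1 0 ∧ q % 2 = 0)) :
    ∀ i j, i ≤ 2 → j < q → C i j = C 0 0 := by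
  have rows : ∀ j, 1 ≤ j → j + 1 < q → C 0 j = C 2 j ∧ C 1 j = C 2 j := by
    intro j h1 h2
    have e0 := m.right 0 j (by omega) (by omega) (by simp only [e1, Iz]; omega)
    have e1 := m.right 1 j (by omega) (by omega) (by simp only [e1, Iz]; omega)
    exact ⟨e0.trans e1, e1⟩
  have s0 : C 2 0 = C 2 1 := m.up 2 0 (by omega) (by omega) (by simp only [e2, Iz]; omega)
  have s1 : ∀ j, 1 ≤ j → j + 1 < q → C 2 j = C 2 0 := by
    intro j h1
    induction j, h1 using Nat.le_induction with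
    | base => intro _; exact s0.symm
    | succ j h1 ih =>
      intro h2
      rw [← ih (by omega)]
      rcases Nat.mod_two_eq_zero_or_one j with h0 | h0
      · exact (m.up 2 j (by omega) (by omega) (by simp only [e2, Iz]; omega)).symm
      · rw [← (rows j (by omega) (by omega)).1, ← (rows (j + 1) (by omega) (by omega)).1]
        exact (m.up 0 j (by omega) (by omega) (by simp only [e2, Iz]; omega)).symm
  have b0 : C 0 0 = C 1 0 := m.right 0 0 (by omega) (by omega) (Or.inl ⟨rfl, by omega⟩)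
  -- the top layer
  have top : (q % 2 = 0 → C 0 (q - 1) = C 1 (q - 1) ∧ C 2 (q - 1) = C 2 0) ∧
      (q % 2 = 1 → C 1 (q - 1) = C 2 (q - 1) ∧ C 0 (q - 1) = C 2 0) := by
    obtain ⟨r, rfl⟩ : ∃ r, q = r + 2 := ⟨q - 2, by omega⟩
    rw [show r + 2 - 1 = r + 1 by omega]
    have top' : r = 0 ∨ (1 ≤ r ∧ C 2 r = C 2 0 ∧ C 0 r = C 2 0) := by
      rcases Nat.eq_zero_or_pos r with h0 | h0
      · exact Or.inl h0
      · exact Or.inr ⟨h0, s1 r h0 (by omega), by
          rw [(rows r h0 (by omega)).1]; exact s1 r h0 (by omega)⟩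
    constructor
    · intro hq2
      refine ⟨m.right 0 (r + 1) (by omega) (by omega) (by simp only [e1, Iz]; omega), ?_⟩
      have e := m.up 2 r (by omega) (by omega) (by simp only [e2, Iz]; omega)
      rcases top' with h0 | ⟨h0, h1, h2⟩
      · subst h0; exact e.symm
      · rw [← e]; exact h1
    · intro hq2
      refine ⟨m.right 1 (r + 1) (by omega) (by omega) (by simp only [e1, Iz]; omega), ?_⟩
      have e := m.up 0 r (by omega) (by omega) (by simp only [e2, Iz]; omega)
      rcases top' with h0 | ⟨h0, h1, h2⟩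
      · omega
      · rw [← e]; exact h2
  -- all corner vertices
  have corners : C 1 0 = C 0 0 ∧ C 2 0 = C 0 0 ∧ C 0 (q - 1) = C 0 0 ∧ C 1 (q - 1) = C 0 0 ∧
      C 2 (q - 1) = C 0 0 := by
    rcases arcs with ⟨p1, p2, p3⟩ | ⟨p1, p2, p3, p4⟩
    · rcases Nat.mod_two_eq_zero_or_one q with h0 | h0
      · obtain ⟨t1, t2⟩ := top.1 h0
        refine ⟨b0.symm, t2.symm.trans p3, p1.trans b0.symm, (t1.symm.trans p1).trans b0.symm, p3⟩
      · obtain ⟨t1, t2⟩ := top.2 h0
        refine ⟨b0.symm, (t2.symm.trans p1).trans b0.symm, p1.trans b0.symm, t1.trans p3, p3⟩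
    · obtain ⟨t1, t2⟩ := top.1 p4
      have e2 : C 2 0 = C 0 0 := t2.symm.trans p2
      exact ⟨b0.symm, e2, p1.trans e2, (t1.symm.trans p1).trans e2, p2⟩
  obtain ⟨c1, c2, c3, c4, c5⟩ := corners
  intro i j hi hj
  rcases Nat.eq_zero_or_pos j with h0 | h0
  · subst h0
    interval_cases i
    · rfl
    · exact c1
    · exact c2
  · rcases Nat.lt_or_ge (j + 1) q with h1 | h1
    · have r := rows j h0 h1
      have s := s1 j h0 h1
      interval_cases i
      · rw [r.1, s, c2]
      · rw [r.2, s, c2]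
      · rw [s, c2]
    · have hj' : j = q - 1 := by omega
      subst hj'
      interval_cases i
      · exact c3
      · exact c4
      · exact c5

theorem iz_clean (hN : 3 ≤ N) : ∀ i, i < N → ¬ (i ≤ 2) → ∀ j, j < q → ¬ e2 N (Iz q) i j := by
  intro i hi hi2 j hj
  simp only [e2, Iz]
  omega

theorem iz_hb (hN : 3 ≤ N) : ∀ i j, i < N → j < q → Iz q i j →
    ¬ ((1 ≤ i ∧ Iz q (i - 1) j) ∨ (i = 0 ∧ Iz q (N - 1) j)) := by
  intro i j hi hj
  simp only [Iz]
  omega

theorem iz_hc (hq : 2 ≤ q) : ∀ i j, i < N → j < q → Iz q i j →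
    ¬ ((1 ≤ j ∧ Iz q i (j - 1)) ∨ (j = 0 ∧ Iz q ((i + (N - h)) % N) (q - 1))) := by
  intro i j hi hj
  simp only [Iz]
  omega

theorem iz_top (hN : 3 ≤ N) (hq : 2 ≤ q) (i : ℕ) : ¬ e2 N (Iz q) i (q - 1) := by
  simp only [e2, Iz]
  omega

/-- two vertical cycles, even number of layers -/
theorem zigV_two_even (hN : 3 ≤ N) (hq : 2 ≤ q) (hq2 : q % 2 = 0) (hg : Nat.gcd N h = 2)
    (m : Moves N q h (fun i j => e1 N q h (Iz q) i j) (fun i j => ¬ e2 N (Iz q) i j) C) :
    ∀ i j, i < N → j < q → C i j = C 0 0 := by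
  have hN0 : 0 < N := by omega
  have hq0 : 0 < q := by omega
  have cl := iz_clean (N := N) (q := q) hN
  refine m.all_of_touched (T := fun i => i ≤ 2) hN0 hq0 cl ?_ _ ?_
  · intro i hi
    refine ⟨i % 2, by omega, by omega, ?_⟩
    rw [hg]
    exact (Nat.mod_modEq _ _).symm
  · intro t ht htT j hj
    refine zigV_aux hN hq m (Or.inr ⟨?_, ?_, ?_, hq2⟩) t j htT hj
    · refine m.arc_pair (T := fun i => i ≤ 2) hN0 hq0 cl (by omega) (by omega) (by omega)
        (iz_top hN hq 0) (by rw [hg]; rfl) ?_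
      intro s _ hs hs2
      rw [hg, Nat.ModEq] at hs2
      omega
    · refine m.arc_pair (T := fun i => i ≤ 2) hN0 hq0 cl (by omega) (by omega) (by omega)
        (iz_top hN hq 2) (by rw [hg]; rfl) ?_
      intro s _ hs hs2
      rw [hg, Nat.ModEq] at hs2
      omega
    · refine m.arc_unique (T := fun i => i ≤ 2) hN0 hq0 cl (by omega) (by omega)
        (iz_top hN hq 1) ?_
      intro s _ hs hs2
      rw [hg, Nat.ModEq] at hs2
      omega

/-- one vertical cycle -/
theorem zigV_one (hN : 3 ≤ N) (hq : 2 ≤ q) (hg : Nat.gcd N h = 1) (u : ℕ)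
    (hu : (u * h) % N = 1) (hu1 : 1 ≤ u) (hu2 : 2 * u < N)
    (m : Moves N q h (fun i j => e1 N q h (Iz q) i j) (fun i j => ¬ e2 N (Iz q) i j) C) :
    ∀ i j, i < N → j < q → C i j = C 0 0 := by
  have hN0 : 0 < N := by omega
  have hq0 : 0 < q := by omega
  have cl := iz_clean (N := N) (q := q) hN
  -- injectivity of `k ↦ k h`
  have inj : ∀ k l, k < N → l < N → k * h ≡ l * h [MOD N] → k = l := by
    intro k l hk hl hkl
    have h1 : k ≡ l [MOD N] := Nat.ModEq.cancel_right_of_coprime hg hkl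
    rwa [Nat.ModEq, Nat.mod_eq_of_lt hk, Nat.mod_eq_of_lt hl] at h1
  have hu' : u * h ≡ 1 [MOD N] := by
    rw [Nat.ModEq, hu, Nat.mod_eq_of_lt (by omega)]
  have h2u : (2 * u) * h ≡ 2 [MOD N] := by
    have := Nat.ModEq.mul_left 2 hu'
    rwa [← mul_assoc] at this
  -- value of a column
  have val : ∀ k, k < N → ∀ t, t ≤ 2 → (k * h) % N = t → k = t * u := by
    intro k hk t ht hkt
    have h0 : k * h ≡ t [MOD N] := by
      rw [Nat.ModEq, hkt, Nat.mod_eq_of_lt (by omega)]
    interval_cases t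
    · refine inj k _ hk (by omega) ?_
      simpa using h0
    · refine inj k _ hk (by omega) ?_
      rw [one_mul]
      exact h0.trans hu'.symm
    · refine inj k _ hk (by omega) ?_
      exact h0.trans h2u.symm
  have arcgen : ∀ s t : ℕ, s ≤ 2 → t ≤ 2 → ∀ K, 1 ≤ K → (s + K * h) % N = t →
      (∀ k, 1 ≤ k → k < K → ¬ ((s + k * h) % N ≤ 2)) → C s (q - 1) = C t 0 := by
    intro s t hs ht K hK hKt hk
    have h4 := m.arc hN0 hq0 (by omega) (iz_top hN hq s) hK
      (fun k hk1 hk2 j hj => cl _ (Nat.mod_lt _ hN0) (hk k hk1 hk2) j hj)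
    rw [h4, ← m.perMod, hKt]
  have sh : ∀ s k, s ≤ 2 → (s + k * h) % N = ((s * u + k) * h) % N := by
    intro s k hs
    have h0 : s ≡ (s * u) * h [MOD N] := by
      interval_cases s
      · simp [Nat.ModEq]
      · rw [one_mul]; exact hu'.symm
      · exact h2u.symm
    rw [add_mul]
    exact Nat.ModEq.add_right _ h0
  have arcs : (C 0 (q - 1) = C 1 0 ∧ C 1 (q - 1) = C 2 0 ∧ C 2 (q - 1) = C 0 0) := by
    refine ⟨?_, ?_, ?_⟩
    · refine arcgen 0 1 (by omega) (by omega) u hu1 (by rw [zero_add]; exact hu) ?_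
      intro k hk1 hk2 hk3
      rw [sh 0 k (by omega), zero_mul, zero_add] at hk3
      have := val k (by omega) _ hk3 rfl
      generalize (k * h) % N = t at hk3 this
      interval_cases t <;> omega
    · refine arcgen 1 2 (by omega) (by omega) u hu1 ?_ ?_
      · rw [sh 1 u (by omega), one_mul, ← two_mul]
        rw [Nat.ModEq, Nat.mod_eq_of_lt (by omega : 2 < N)] at h2u
        exact h2u
      intro k hk1 hk2 hk3
      rw [sh 1 k (by omega), one_mul] at hk3
      have := val (u + k) (by omega) _ hk3 rfl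
      generalize ((u + k) * h) % N = t at hk3 this
      interval_cases t <;> omega
    · refine arcgen 2 0 (by omega) (by omega) (N - 2 * u) (by omega) ?_ ?_
      · rw [sh 2 _ (by omega)]
        have : 2 * u + (N - 2 * u) = N := by omega
        rw [this, Nat.mul_mod_right]
      intro k hk1 hk2 hk3
      rw [sh 2 k (by omega)] at hk3
      have := val (2 * u + k) (by omega) _ hk3 rfl
      generalize ((2 * u + k) * h) % N = t at hk3 this
      interval_cases t <;> omega
  refine m.all_of_touched (T := fun i => i ≤ 2) hN0 hq0 cl ?_ _ ?_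
  · intro i hi
    refine ⟨0, by omega, by omega, ?_⟩
    rw [hg]
    exact Nat.modEq_one
  · intro t ht htT j hj
    exact zigV_aux hN hq m (Or.inl arcs) t j htT hj

end Pool.Agent.Helper71.HD
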